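import Pool.Agent.H622R3.SM.T_COMP
import Pool.Agent.ER.Dec
import Pool.Agent.NPC.Sat
import Pool.Agent.H612.TmPoly

set_option autoImplicit false

/-!
# The polynomial hierarchy over the existential theory of the reals
-/

namespace Run7.h625.PHL

open Pool.Agent Pool.Agent.NPC Pool.Agent.NPC.ER Pool.Agent.NPC.H612

/-- The polynomial hierarchy over the existential theory of the reals: the smallest class of
languages which contains the class `∃ℝ` and is closed under complements, intersections,
preimages under polynomial-time functions, and polynomially bounded existential quantification. -/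
inductive InPHER : Set (List Bool) → Prop
  | er {L : Set (List Bool)} : InER L → InPHER L
  | compl {L : Set (List Bool)} : InPHER L → InPHER Lᶜ
  | inter {L L' : Set (List Bool)} : InPHER L → InPHER L' → InPHER (L ∩ L')
  | preimage {L : Set (List Bool)} {g : List Bool → List Bool} : PolyTime g → InPHER L →
      InPHER {w | g w ∈ L}
  | bex {L : Set (List Bool)} (p : Polynomial ℕ) : InPHER L →
      InPHER {w | ∃ u : List Bool, u.length ≤ p.eval w.length ∧ pairBits w u ∈ L}

/-! ### The collapse -/

/-- A literal as a formula: a variable is true if its value is positive. -/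
def litFm (l : Bool × ℕ) : Fm :=
  if l.1 = true then Fm.lt Tm.zero (Tm.var l.2) else Fm.le (Tm.var l.2) Tm.zero

/-- A clause as a formula. -/
def clFm (c : Lit ℕ × Lit ℕ × Lit ℕ) : Fm :=
  Fm.or (litFm c.1) (Fm.or (litFm c.2.1) (litFm c.2.2))

theorem litFm_holds (x : ℕ → ℝ) (l : Bool × ℕ) :
    (litFm l).Holds x ↔ decide (0 < x l.2) = l.1 := by
  obtain ⟨b, v⟩ := l
  cases b <;> simp [litFm, Fm.Holds, Tm.eval]

theorem etr_sat3 (φ : List (Lit ℕ × Lit ℕ × Lit ℕ)) : SAT3 φ ↔ ETR (conj (φ.map clFm)) := by
  unfold ETR SAT3 Sat3V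
  constructor
  · rintro ⟨τ, hτ⟩
    refine ⟨fun v => if τ v = true then 1 else -1, ?_⟩
    rw [holds_conj]
    intro ψ hψ
    rw [List.mem_map] at hψ
    obtain ⟨c, hc, rfl⟩ := hψ
    have h1 : ∀ l : Bool × ℕ, τ l.2 = l.1 →
        (litFm l).Holds (fun v => if τ v = true then (1 : ℝ) else -1) := by
      intro l hl
      rw [litFm_holds]
      cases h : τ l.2 <;> simp [← hl, h]
    rcases hτ c hc with h | h | h
    · exact Or.inl (h1 _ h)
    · exact Or.inr (Or.inl (h1 _ h))
    · exact Or.inr (Or.inr (h1 _ h))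
  · rintro ⟨x, hx⟩
    rw [holds_conj] at hx
    refine ⟨fun v => decide (0 < x v), fun c hc => ?_⟩
    rcases hx _ (List.mem_map_of_mem hc) with h | h | h
    · exact Or.inl ((litFm_holds _ _).1 h)
    · exact Or.inr (Or.inl ((litFm_holds _ _).1 h))
    · exact Or.inr (Or.inr ((litFm_holds _ _).1 h))

theorem poly_litFm {α : Type} [TEnc α] {l : α → Bool × ℕ} (hl : Poly l) :
    Poly (fun a => litFm (l a)) := by
  unfold litFm
  exact NPC.Poly.ite (NPC.Poly.decide_bool (NPC.Poly.fst hl))
    (poly_flt (NPC.Poly.const _) (poly_tvar (NPC.Poly.snd hl)))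
    (poly_fle (poly_tvar (NPC.Poly.snd hl)) (NPC.Poly.const _))

theorem poly_clFm : Poly clFm :=
  poly_for (poly_litFm (NPC.Poly.fst NPC.Poly.id))
    (poly_for (poly_litFm (NPC.Poly.fst (NPC.Poly.snd NPC.Poly.id)))
      (poly_litFm (NPC.Poly.snd (NPC.Poly.snd NPC.Poly.id))))

/-- The existential theory of the reals is `NP`-hard. -/
theorem npHard_ETR : NPHard (lang ETR) := by
  have h : HardI ETR := hardI_SAT3.trans
    (f := fun φ => conj (φ.map clFm))
    (poly_conj (NPC.Poly.map (F := fun (_ : List (Lit ℕ × Lit ℕ × Lit ℕ)) c => clFm c)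
      NPC.Poly.id (poly_clFm.comp (NPC.Poly.snd NPC.Poly.id)))) etr_sat3
  exact h.toNPHardP

theorem np_sub_of_er (h : ∀ L : Set (List Bool), InER L → InP L) :
    ∀ L : Set (List Bool), InNP L → InP L :=
  npHard_ETR.collapse (h _ erComplete_ETR.1)

theorem inP_compl' {L : Set (List Bool)} (h : InP L) : InP Lᶜ := by
  obtain ⟨V, hV, hV'⟩ := h
  have h4 : Poly (fun x : List Bool => !decide (x = [true])) :=
    NPC.Poly.not (NPC.Poly.decide_eq NPC.Poly.id (NPC.Poly.const _))
  refine ⟨fun x => [!decide (V x = [true])],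
    polyTime_test (g := fun x => !decide (x = [true])) hV h4, fun x => ?_⟩
  rw [Set.mem_compl_iff, hV' x]
  simp

theorem inP_inter' {L L' : Set (List Bool)} (h : InP L) (h' : InP L') : InP (L ∩ L') := by
  obtain ⟨V, hV, hV'⟩ := h
  obtain ⟨W, hW, hW'⟩ := h'
  have e1 : PC (fun x : List Bool => x) (fun x : List Bool => x) V :=
    H642R2.TMSim.polyTime_toPC hV
  have e2 : PC (fun x : List Bool => x) (fun x : List Bool => x) W :=
    H642R2.TMSim.polyTime_toPC hW
  have f1 : PC (fun x : List Bool => x) (bits : List Bool → List Bool) V :=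
    PC.comp (g := fun x => x) (f := V) PC.rawIn e1
  have f2 : PC (fun x : List Bool => x) (bits : List Bool → List Bool) W :=
    PC.comp (g := fun x => x) (f := W) PC.rawIn e2
  have f3 : PC (fun x : List Bool => x) (bits : List Bool × List Bool → List Bool)
      (fun x => (V x, W x)) := by
    have g1 : PC (fun x : List Bool => x) T.enc (fun x => toT (V x)) := f1
    have g2 : PC (fun x : List Bool => x) T.enc (fun x => toT (W x)) := f2
    exact PC.node g1 g2
  have h4 : Poly (fun p : List Bool × List Bool =>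
      decide (p.1 = [true]) && decide (p.2 = [true])) :=
    NPC.Poly.and (NPC.Poly.decide_eq (NPC.Poly.fst NPC.Poly.id) (NPC.Poly.const _))
      (NPC.Poly.decide_eq (NPC.Poly.snd NPC.Poly.id) (NPC.Poly.const _))
  have h5 : PC (fun x : List Bool => x) (bits : Bool → List Bool)
      (fun x => decide (V x = [true]) && decide (W x = [true])) :=
    PC.comp (g := fun p : List Bool × List Bool =>
      decide (p.1 = [true]) && decide (p.2 = [true])) (f := fun x => (V x, W x)) h4 f3
  refine ⟨_, PC.toPolyTime (PC.comp (g := fun b => [b])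
    (f := fun x => decide (V x = [true]) && decide (W x = [true])) PC.rawBool h5), fun x => ?_⟩
  rw [Set.mem_inter_iff, hV' x, hW' x]
  simp

/-- **The polynomial hierarchy over `∃ℝ` collapses to `P` if `∃ℝ ⊆ P`.** -/
theorem InPHER.collapse (h : ∀ L : Set (List Bool), InER L → InP L) {L : Set (List Bool)}
    (hL : InPHER L) : InP L := by
  induction hL with
  | er h1 => exact h _ h1
  | compl _ ih => exact inP_compl' ih
  | inter _ _ ih ih' => exact inP_inter' ih ih'
  | preimage hg _ ih => exact InP.of_reduces ⟨_, hg, fun _ => Iff.rfl⟩ ih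
  | bex p _ ih =>
    obtain ⟨V, hV, hV'⟩ := ih
    refine np_sub_of_er h _ ⟨V, p, hV, fun x => ?_⟩
    simp only [Set.mem_ofPred_eq, hV']

/-! ### Predicates on structured data -/

section PHP

variable {α β : Type} [TEnc α] [TDec α] [TEnc β] [TDec β]

/-- Membership in the hierarchy of a decision problem about encodable data. -/
def PHP {α : Type} [TEnc α] (P : α → Prop) : Prop := InPHER (lang P)

omit [TDec α] in
theorem PHP.congr {P Q : α → Prop} (h : PHP P) (e : ∀ a, P a ↔ Q a) : PHP Q := by
  have : P = Q := funext fun a => propext (e a)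
  rwa [← this]

theorem PHP.er {φ : α → Fm} (h : Poly φ) : PHP (fun a => ETR (φ a)) :=
  InPHER.er (InER.of_poly h fun _ => Iff.rfl)

theorem PHP.poly {d : α → Bool} (h : Poly d) : PHP (fun a => d a = true) := by
  refine (PHP.er (φ := fun a => if d a = true then tt else Fm.ff)
    (NPC.Poly.ite (NPC.Poly.decide_bool h) (NPC.Poly.const _) (NPC.Poly.const _))).congr ?_
  intro a
  cases h : d a
  · simp [not_ETR_ff]
  · simp only [if_true, iff_true]
    exact ⟨fun _ => 0, holds_tt _⟩

omit [TDec α] in
theorem PHP.and {P Q : α → Prop} (h : PHP P) (h' : PHP Q) : PHP (fun a => P a ∧ Q a) := by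
  have e : lang (fun a => P a ∧ Q a) = lang P ∩ lang Q := by
    ext x
    constructor
    · rintro ⟨a, ha, h1, h2⟩
      exact ⟨⟨a, ha, h1⟩, ⟨a, ha, h2⟩⟩
    · rintro ⟨⟨a, ha, h1⟩, ⟨b, hb, h2⟩⟩
      have : a = b := bits_injective (ha.trans hb.symm)
      subst this
      exact ⟨a, ha, h1, h2⟩
  unfold PHP
  rw [e]
  exact InPHER.inter h h'

theorem PHP.true : PHP (fun _ : α => True) :=
  (PHP.poly (d := fun _ : α => Bool.true) (NPC.Poly.const _)).congr fun _ => by simp

theorem PHP.not {P : α → Prop} (h : PHP P) : PHP (fun a => ¬ P a) := by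
  have e : lang (fun a => ¬ P a) = (lang P)ᶜ ∩ lang (fun _ : α => True) := by
    ext x
    constructor
    · rintro ⟨a, rfl, h1⟩
      refine ⟨?_, a, rfl, trivial⟩
      rw [Set.mem_compl_iff, bits_mem_lang]
      exact h1
    · rintro ⟨h1, a, rfl, -⟩
      rw [Set.mem_compl_iff, bits_mem_lang] at h1
      exact ⟨a, rfl, h1⟩
  unfold PHP
  rw [e]
  exact InPHER.inter (InPHER.compl h) PHP.true

theorem PHP.or {P Q : α → Prop} (h : PHP P) (h' : PHP Q) : PHP (fun a => P a ∨ Q a) :=
  (h.not.and h'.not).not.congr fun a => by tauto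

theorem PHP.imp {P Q : α → Prop} (h : PHP P) (h' : PHP Q) : PHP (fun a => P a → Q a) :=
  (h.and h'.not).not.congr fun a => by tauto

omit [TDec β] in
theorem PHP.comp {P : β → Prop} (h : PHP P) {f : α → β} (hf : Poly f) :
    PHP (fun a => P (f a)) := by
  obtain ⟨g, hg, h1⟩ := reduces_lang (P := fun a => P (f a)) (Q := P) hf fun _ => Iff.rfl
  have e : lang (fun a => P (f a)) = {w | g w ∈ lang P} := by
    ext w
    exact h1 w
  unfold PHP
  rw [e]
  exact InPHER.preimage hg h

theorem PHP.ex {P : α → β → Prop} (h : PHP (fun p : α × β => P p.1 p.2)) (q : Polynomial ℕ)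
    (hq : ∀ a b, P a b → sz b ≤ q.eval (sz a)) : PHP (fun a => ∃ b, P a b) := by
  have h1 : Poly (fun y : List Bool => (unbits α (unpair y).1).bind fun a =>
      (unbits β (unpair y).2).map fun b => (a, b)) := by
    refine Poly.optBind (f := fun (y : List Bool) a =>
      (unbits β (unpair y).2).map fun b => (a, b)) (poly_unbits.comp (NPC.Poly.fst poly_unpair)) ?_
    refine Poly.optMap (o := fun p : List Bool × α => unbits β (unpair p.1).2)
      (f := fun p b => (p.2, b))
      (poly_unbits.comp (NPC.Poly.snd (poly_unpair.comp (NPC.Poly.fst NPC.Poly.id)))) ?_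
    exact NPC.Poly.pair (NPC.Poly.snd (NPC.Poly.fst NPC.Poly.id)) (NPC.Poly.snd NPC.Poly.id)
  obtain ⟨g, hg, hg'⟩ : ∃ g : List Bool → List Bool, PolyTime g ∧
      ∀ y, g y = ((unbits α (unpair y).1).bind fun a =>
        (unbits β (unpair y).2).map fun b => (a, b)).elim [] bits :=
    ⟨_, polyTime_opt h1, fun y => by
      cases ((unbits α (unpair y).1).bind fun a =>
        (unbits β (unpair y).2).map fun b => (a, b)) <;> rfl⟩
  have e : lang (fun a => ∃ b, P a b) = {w | ∃ u : List Bool, u.length ≤ q.eval w.length ∧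
      pairBits w u ∈ {y | g y ∈ lang (fun p : α × β => P p.1 p.2)}} := by
    ext w
    constructor
    · rintro ⟨a, rfl, b, hb⟩
      refine ⟨bits b, ?_, ?_⟩
      · rw [bits_length, bits_length]
        exact hq a b hb
      · simp only [Set.mem_ofPred_eq, hg', unpair_pairBits, unbits_bits, Option.bind_some,
          Option.map_some, Option.elim_some]
        rw [bits_mem_lang]
        exact hb
    · rintro ⟨u, -, hu⟩
      simp only [Set.mem_ofPred_eq, hg', unpair_pairBits] at hu
      rcases ha : unbits α w with _ | a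
      · rw [ha] at hu
        exact absurd hu nil_notMem_lang
      · rcases hb : unbits β u with _ | b
        · rw [ha, hb] at hu
          exact absurd hu nil_notMem_lang
        · rw [ha, hb] at hu
          simp only [Option.bind_some, Option.map_some, Option.elim_some] at hu
          rw [bits_mem_lang] at hu
          exact ⟨a, bits_of_unbits ha, b, hu⟩
  unfold PHP
  rw [e]
  exact InPHER.bex q (InPHER.preimage hg h)

theorem PHP.all {P R : α → β → Prop} (hR : PHP (fun p : α × β => R p.1 p.2))
    (h : PHP (fun p : α × β => P p.1 p.2)) (q : Polynomial ℕ)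
    (hq : ∀ a b, R a b → sz b ≤ q.eval (sz a)) : PHP (fun a => ∀ b, R a b → P a b) := by
  have h1 : PHP (fun a => ∃ b, R a b ∧ ¬ P a b) :=
    PHP.ex (P := fun a b => R a b ∧ ¬ P a b) (hR.and h.not) q fun a b hb => hq a b hb.1
  exact h1.not.congr fun a => by
    constructor
    · intro h2 b hb
      by_contra h3
      exact h2 ⟨b, hb, h3⟩
    · rintro h2 ⟨b, hb, h3⟩
      exact h3 (h2 b hb)

end PHP

end Run7.h625.PHL
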