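import Pool.Agent.Run7.h625.PHL.Control
import Pool.Agent.Run7.h625.PHL.PH

set_option autoImplicit false
set_option linter.unusedSectionVars false

/-!
# The oracle belongs to the polynomial hierarchy over `∃ℝ`
-/

namespace Run7.h625.PHL

open Pool.Agent Pool.Agent.NPC Pool.Agent.NPC.ER Pool.Agent.NPC.H612 Pool.Agent.H558R2
open Pool.Agent.H622R3.SM

section

variable {α : Type} [TEnc α] [TDec α] {β : Type} [TEnc β] [TDec β]

theorem exists_bound {B : α → ℕ} (hB : UPoly B) : ∃ q : Polynomial ℕ, ∀ a, B a ≤ q.eval (sz a) := by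
  obtain ⟨p, hp⟩ := NPC.Poly.sz_le hB
  refine ⟨p, fun a => ?_⟩
  have h1 := hp a
  have h2 := length_lt_sz (List.replicate (B a) ())
  rw [List.length_replicate] at h2
  omega

theorem php_ex {P : α → β → Prop} (h : PHP (fun p : α × β => P p.1 p.2)) {B : α → ℕ}
    (hB : UPoly B) (hq : ∀ a b, P a b → sz b ≤ B a) : PHP (fun a => ∃ b, P a b) := by
  obtain ⟨q, hq'⟩ := exists_bound hB
  exact PHP.ex h q fun a b hb => (hq a b hb).trans (hq' a)

theorem php_all {P R : α → β → Prop} (hR : PHP (fun p : α × β => R p.1 p.2))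
    (h : PHP (fun p : α × β => P p.1 p.2)) {B : α → ℕ} (hB : UPoly B)
    (hq : ∀ a b, R a b → sz b ≤ B a) : PHP (fun a => ∀ b, R a b → P a b) := by
  obtain ⟨q, hq'⟩ := exists_bound hB
  exact PHP.all hR h q fun a b hb => (hq a b hb).trans (hq' a)

theorem php_dec {P : α → Prop} {d : α → Bool} (h : Poly d) (hP : ∀ a, d a = true ↔ P a) : PHP P :=
  (PHP.poly h).congr hP

theorem u_sz {f : α → β} (hf : Poly f) : UPoly (fun a => sz (f a)) := by
  have h : UPoly (fun a => (bits (f a)).length) := UPoly.length (TPC.poly_bits hf)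
  exact h

theorem one_le_dm (d : Dim) : 1 ≤ dm d := Nat.succ_pos _

variable {d : α → Dim} {cs : α → List Cst}

theorem php_ne (hd : Poly d) (hcs : Poly cs) :
    PHP (fun a => (ZC (dm (d a)) (dn (d a)) (cs a)).Nonempty) :=
  (PHP.er (poly_consF hd hcs)).congr fun a => etr_ne (one_le_dm _) (cs a)

theorem php_fe (hd : Poly d) (hcs : Poly cs) :
    PHP (fun a => ∃ x ∈ ZC (dm (d a)) (dn (d a)) (cs a), Feas x) :=
  (PHP.er (poly_feF hd hcs)).congr fun a => etr_fe (one_le_dm _) (cs a)

theorem php_inf (hd : Poly d) (hcs : Poly cs) :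
    PHP (fun a => ∃ x ∈ ZC (dm (d a)) (dn (d a)) (cs a), ¬ Feas x) :=
  (PHP.er (poly_infF hd hcs)).congr fun a => etr_inf (one_le_dm _) (cs a)

theorem php_settled (hd : Poly d) (hcs : Poly cs) :
    PHP (fun a => Settled (dm (d a)) (dn (d a)) (cs a)) :=
  ((php_fe hd hcs).and (php_inf hd hcs)).not

theorem poly_tcs {t : α → Tst} {v : α → Bool} (ht : Poly t) (hv : Poly v) :
    Poly (fun a => tcs (t a) (v a)) := by
  unfold tcs
  refine NPC.Poly.pair (NPC.Poly.fst ht) (NPC.Poly.ite (NPC.Poly.decide_bool (NPC.Poly.snd ht))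
    (NPC.Poly.ite (NPC.Poly.decide_bool hv) (NPC.Poly.const _) (NPC.Poly.const _))
    (NPC.Poly.ite (NPC.Poly.decide_bool hv) (NPC.Poly.const _) (NPC.Poly.const _)))

theorem php_sh (hd : Poly d) (hcs : Poly cs) {l : α → List Tst} (hl : Poly l) :
    PHP (fun a => l a ∈ Sh (tval (dm (d a)) (dn (d a))) (GT (dm (d a)) (dn (d a)))
      (ZC (dm (d a)) (dn (d a)) (cs a))) := by
  have h1 : PHP (fun a => ∀ t ∈ l a, t.1.length = ell (dm (d a)) (dn (d a))) := by
    refine php_dec (d := fun a => (l a).all fun t =>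
      decide (t.1.length = ell (dm (d a)) (dn (d a)))) ?_ ?_
    · refine NPC.Poly.all (p := fun (a : α) (t : Tst) =>
        decide (t.1.length = ell (dm (d a)) (dn (d a)))) hl ?_
      exact NPC.Poly.decide_eq (NPC.Poly.length (NPC.Poly.fst (NPC.Poly.snd NPC.Poly.id)))
        (wk (u_ell' hd).toPoly)
    · intro a
      simp
  have h2 : PHP (fun a => ∀ v : List Bool, v.length = (l a).length →
      (ZC (dm (d a)) (dn (d a)) (cs a ++ ((l a).zip v).map fun p => tcs p.1 p.2)).Nonempty) := by
    refine php_all (R := fun a (v : List Bool) => v.length = (l a).length) ?_ ?_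
      (B := fun a => 4 * (l a).length + 1) ?_ ?_
    · refine php_dec (d := fun p : α × List Bool => decide (p.2.length = (l p.1).length)) ?_
        (fun p => by simp)
      exact NPC.Poly.decide_eq (NPC.Poly.length (NPC.Poly.snd NPC.Poly.id))
        (NPC.Poly.length (wk hl))
    · refine php_ne (d := fun p : α × List Bool => d p.1) (wk hd) (NPC.Poly.append (wk hcs) ?_)
      refine NPC.Poly.map (F := fun (_ : α × List Bool) (q : Tst × Bool) => tcs q.1 q.2)
        (NPC.Poly.zip (wk hl) (NPC.Poly.snd NPC.Poly.id)) ?_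
      exact poly_tcs (NPC.Poly.fst (NPC.Poly.snd NPC.Poly.id))
        (NPC.Poly.snd (NPC.Poly.snd NPC.Poly.id))
    · exact ((UPoly.const 4).mul (UPoly.length hl)).add (UPoly.const 1)
    · intro a v hv
      have := sz_listBool_le v
      omega
  exact (h1.and h2).congr fun a => (mem_sh_zc _ _ _ _).symm

/-- The tuples of shattered lists. -/
def YT (m n : ℕ) (cs : List Cst) : Set (List (List Tst)) :=
  Yp (mm m n) (Sh (tval m n) (GT m n) (ZC m n cs))

theorem sz_of_yt {m n : ℕ} {cs : List Cst} {y : List (List Tst)} (h : y ∈ YT m n cs) :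
    sz y ≤ nn m n := by
  rw [← bits_length]
  exact (par m n).len y (yp_mono (sh_mono (Set.subset_univ _)) h)

theorem php_yt (hd : Poly d) (hcs : Poly cs) {y : α → List (List Tst)} (hy : Poly y) :
    PHP (fun a => y a ∈ YT (dm (d a)) (dn (d a)) (cs a)) := by
  have h1 : PHP (fun a => (y a).length = mm (dm (d a)) (dn (d a))) := by
    refine php_dec (d := fun a => decide ((y a).length = mm (dm (d a)) (dn (d a)))) ?_
      (fun a => by simp)
    exact NPC.Poly.decide_eq (NPC.Poly.length hy) (u_mm hd).toPoly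
  have h2 : PHP (fun a => ∀ l, l ∈ y a → l ∈ Sh (tval (dm (d a)) (dn (d a)))
      (GT (dm (d a)) (dn (d a))) (ZC (dm (d a)) (dn (d a)) (cs a))) := by
    refine php_all (R := fun a (l : List Tst) => l ∈ y a) ?_ ?_ (B := fun a => sz (y a)) ?_ ?_
    · refine php_dec (d := fun p : α × List Tst => decide (p.2 ∈ y p.1)) ?_ (fun p => by simp)
      exact NPC.Poly.dec_mem (NPC.Poly.snd NPC.Poly.id) (wk hy)
    · exact php_sh (d := fun p : α × List Tst => d p.1) (wk hd) (wk hcs)
        (NPC.Poly.snd NPC.Poly.id)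
    · exact u_sz hy
    · intro a l hl
      exact (sz_le_of_mem hl).le
  exact h1.and h2

/-! ### Hash functions -/

theorem ip_eq (r x : List Bool) : ip r x =
    decide (((r.zip x).filter fun p => p.1 && p.2).length % 2 = 1) := by
  induction r generalizing x with
  | nil => simp [ip_nil]
  | cons a r ih =>
    rcases x with _ | ⟨b, x⟩
    · simp [ip_nil']
    · rw [ip_cons, ih x, List.zip_cons_cons, List.filter_cons]
      cases a <;> cases b <;> simp
      rw [Bool.eq_iff_iff]
      simp
      omega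

theorem poly_ip {r x : α → List Bool} (hr : Poly r) (hx : Poly x) :
    Poly (fun a => ip (r a) (x a)) := by
  have h1 : Poly (fun a => decide
      ((((r a).zip (x a)).filter fun p => p.1 && p.2).length % 2 = 1)) := by
    refine NPC.Poly.decide_eq (NPC.Poly.mod (NPC.Poly.length
      (NPC.Poly.filter (p := fun (_ : α) (q : Bool × Bool) => q.1 && q.2)
        (NPC.Poly.zip hr hx) ?_)) (NPC.Poly.const 2)) (NPC.Poly.const 1)
    exact NPC.Poly.and (NPC.Poly.fst (NPC.Poly.snd NPC.Poly.id))
      (NPC.Poly.snd (NPC.Poly.snd NPC.Poly.id))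
  exact h1.congr fun a => (ip_eq _ _).symm

theorem poly_hashOf {A : α → List (List Bool)} {x : α → List Bool} (hA : Poly A) (hx : Poly x) :
    Poly (fun a => hashOf (A a) (x a)) := by
  unfold hashOf
  exact NPC.Poly.map (F := fun (a : α) r => ip r (x a)) hA
    (poly_ip (NPC.Poly.snd NPC.Poly.id) (wk hx))

/-- `A` isolates the tuple `y`. -/
def IsoT (m n : ℕ) (cs : List Cst) (A : List (List Bool)) (y : List (List Tst)) : Prop :=
  ∀ y', y' ∈ YT m n cs → (hashOf A (bits y') = hashOf A (bits y) → y' = y)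

theorem php_isoT (hd : Poly d) (hcs : Poly cs) {A : α → List (List Bool)} (hA : Poly A)
    {y : α → List (List Tst)} (hy : Poly y) :
    PHP (fun a => IsoT (dm (d a)) (dn (d a)) (cs a) (A a) (y a)) := by
  refine php_all (R := fun a (y' : List (List Tst)) => y' ∈ YT (dm (d a)) (dn (d a)) (cs a)) ?_ ?_
    (B := fun a => nn (dm (d a)) (dn (d a))) (u_nn hd) (fun a y' h => sz_of_yt h)
  · exact php_yt (d := fun p : α × List (List Tst) => d p.1) (wk hd) (wk hcs)
      (NPC.Poly.snd NPC.Poly.id)
  · refine php_dec (d := fun p : α × List (List Tst) =>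
      !decide (hashOf (A p.1) (bits p.2) = hashOf (A p.1) (bits (y p.1))) ||
        decide (p.2 = y p.1)) ?_ (fun p => by
          simp only [Bool.or_eq_true, Bool.not_eq_true', decide_eq_false_iff_not, decide_eq_true_eq]
          tauto)
    have e1 : Poly (fun p : α × List (List Tst) => bits p.2) :=
      TPC.poly_bits (NPC.Poly.snd NPC.Poly.id)
    have e2 : Poly (fun p : α × List (List Tst) => bits (y p.1)) := TPC.poly_bits (wk hy)
    exact NPC.Poly.or (NPC.Poly.not (NPC.Poly.decide_eq (poly_hashOf (wk hA) e1)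
      (poly_hashOf (wk hA) e2))) (NPC.Poly.decide_eq (NPC.Poly.snd NPC.Poly.id) (wk hy))

/-- The conditions on the sizes of the hash functions. -/
def Szs (N k : ℕ) (As : List (List (List Bool))) : Prop :=
  As.length ≤ k ∧ ∀ A ∈ As, A.length ≤ k ∧ ∀ r ∈ A, r.length ≤ N

theorem iso_iff (m n : ℕ) (cs : List Cst) (k : ℕ) :
    Iso (nn m n) k (YB (tval m n) (GT m n) (mm m n) (ZC m n cs)) ↔
      ∃ As : List (List (List Bool)), Szs (nn m n) k As ∧
        ∀ y, y ∈ YT m n cs → ∃ A, A ∈ As ∧ IsoT m n cs A y := by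
  unfold Iso Szs
  refine exists_congr fun As => ?_
  rw [and_assoc]
  refine and_congr Iff.rfl (and_congr Iff.rfl ?_)
  constructor
  · intro h y hy
    obtain ⟨A, hA, h1⟩ := h (bits y) ⟨y, hy, rfl⟩
    refine ⟨A, hA, fun y' hy' h2 => ?_⟩
    exact bits_injective (h1 (bits y') ⟨y', hy', rfl⟩ h2)
  · rintro h _ ⟨y, hy, rfl⟩
    obtain ⟨A, hA, h1⟩ := h y hy
    refine ⟨A, hA, ?_⟩
    rintro _ ⟨y', hy', rfl⟩ h2
    rw [h1 y' hy' h2]

theorem sz_of_szs {N k : ℕ} {As : List (List (List Bool))} (h : Szs N k As) :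
    sz As ≤ k * ((k * ((4 * N + 1) + 1) + 1) + 1) + 1 := by
  have h1 : ∀ A ∈ As, sz A ≤ k * ((4 * N + 1) + 1) + 1 := by
    intro A hA
    obtain ⟨h2, h3⟩ := h.2 A hA
    have h4 := sz_le_length_mul A (4 * N + 1) (fun r hr => by
      have := sz_listBool_le r
      have := h3 r hr
      omega)
    exact h4.trans (Nat.add_le_add_right (Nat.mul_le_mul_right _ h2) _)
  have h5 := sz_le_length_mul As _ h1
  exact h5.trans (Nat.add_le_add_right (Nat.mul_le_mul_right _ h.1) _)

theorem php_iso (hd : Poly d) (hcs : Poly cs) {k : α → List Unit} (hk : Poly k) :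
    PHP (fun a => Iso (nn (dm (d a)) (dn (d a))) (k a).length
      (YB (tval (dm (d a)) (dn (d a))) (GT (dm (d a)) (dn (d a))) (mm (dm (d a)) (dn (d a)))
        (ZC (dm (d a)) (dn (d a)) (cs a)))) := by
  have hkl : UPoly (fun a => (k a).length) := UPoly.length hk
  have h1 : PHP (fun p : α × List (List (List Bool)) =>
      Szs (nn (dm (d p.1)) (dn (d p.1))) (k p.1).length p.2) := by
    refine php_dec (d := fun p : α × List (List (List Bool)) =>
      decide (p.2.length ≤ (k p.1).length) && p.2.all fun A =>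
        decide (A.length ≤ (k p.1).length) && A.all fun r =>
          decide (r.length ≤ nn (dm (d p.1)) (dn (d p.1)))) ?_ ?_
    · refine NPC.Poly.and (NPC.Poly.decide_le (NPC.Poly.length (NPC.Poly.snd NPC.Poly.id))
        (wk hkl.toPoly)) ?_
      refine NPC.Poly.all (p := fun (p : α × List (List (List Bool))) (A : List (List Bool)) =>
        decide (A.length ≤ (k p.1).length) && A.all fun r =>
          decide (r.length ≤ nn (dm (d p.1)) (dn (d p.1)))) (NPC.Poly.snd NPC.Poly.id) ?_
      refine NPC.Poly.and (NPC.Poly.decide_le (NPC.Poly.length (NPC.Poly.snd NPC.Poly.id))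
        (wk (wk hkl.toPoly))) ?_
      refine NPC.Poly.all (p := fun (p : (α × List (List (List Bool))) × List (List Bool))
        (r : List Bool) => decide (r.length ≤ nn (dm (d p.1.1)) (dn (d p.1.1))))
        (NPC.Poly.snd NPC.Poly.id) ?_
      exact NPC.Poly.decide_le (NPC.Poly.length (NPC.Poly.snd NPC.Poly.id))
        (wk (wk (wk (u_nn hd).toPoly)))
    · rintro ⟨a, As⟩
      unfold Szs
      simp
  have h2 : PHP (fun p : α × List (List (List Bool)) =>
      ∀ y, y ∈ YT (dm (d p.1)) (dn (d p.1)) (cs p.1) →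
        ∃ A, A ∈ p.2 ∧ IsoT (dm (d p.1)) (dn (d p.1)) (cs p.1) A y) := by
    refine php_all (R := fun (p : α × List (List (List Bool))) (y : List (List Tst)) =>
      y ∈ YT (dm (d p.1)) (dn (d p.1)) (cs p.1)) ?_ ?_
      (B := fun p => nn (dm (d p.1)) (dn (d p.1))) (u_nn (wk hd)) (fun a y' h => sz_of_yt h)
    · exact php_yt (d := fun p : (α × List (List (List Bool))) × List (List Tst) => d p.1.1)
        (wk (wk hd)) (wk (wk hcs)) (NPC.Poly.snd NPC.Poly.id)
    · refine php_ex (P := fun (p : (α × List (List (List Bool))) × List (List Tst))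
        (A : List (List Bool)) => A ∈ p.1.2 ∧
          IsoT (dm (d p.1.1)) (dn (d p.1.1)) (cs p.1.1) A p.2) ?_
        (B := fun p => sz p.1.2) (u_sz (NPC.Poly.snd (NPC.Poly.fst NPC.Poly.id)))
        (fun a A hA => (sz_le_of_mem hA.1).le)
      refine PHP.and ?_ ?_
      · refine php_dec (d := fun p : ((α × List (List (List Bool))) × List (List Tst)) ×
          List (List Bool) => decide (p.2 ∈ p.1.1.2)) ?_ (fun p => by simp)
        exact NPC.Poly.dec_mem (NPC.Poly.snd NPC.Poly.id)
          (NPC.Poly.snd (NPC.Poly.fst (NPC.Poly.fst NPC.Poly.id)))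
      · exact php_isoT (d := fun p : ((α × List (List (List Bool))) × List (List Tst)) ×
          List (List Bool) => d p.1.1.1) (wk (wk (wk hd))) (wk (wk (wk hcs)))
          (NPC.Poly.snd NPC.Poly.id) (NPC.Poly.snd (NPC.Poly.fst NPC.Poly.id))
  refine (php_ex (P := fun a (As : List (List (List Bool))) =>
    Szs (nn (dm (d a)) (dn (d a))) (k a).length As ∧
      ∀ y, y ∈ YT (dm (d a)) (dn (d a)) (cs a) →
        ∃ A, A ∈ As ∧ IsoT (dm (d a)) (dn (d a)) (cs a) A y) (h1.and h2)
    (B := fun a => (k a).length * (((k a).length * ((4 * nn (dm (d a)) (dn (d a)) + 1) + 1) + 1) +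
      1) + 1) ?_ (fun a As h => sz_of_szs h.1)).congr fun a => (iso_iff _ _ _ _).symm
  exact (hkl.mul (((hkl.mul ((((UPoly.const 4).mul (u_nn hd)).add (UPoly.const 1)).add
    (UPoly.const 1))).add (UPoly.const 1)).add (UPoly.const 1))).add (UPoly.const 1)

theorem psi_lt_iff (m n : ℕ) (cs cs' : List Cst) : psi m n cs < psi m n cs' ↔
    ∃ k : List Unit, k.length ≤ nn m n + 1 ∧
      (Iso (nn m n) k.length (YB (tval m n) (GT m n) (mm m n) (ZC m n cs)) ∧
      ¬ Iso (nn m n) k.length (YB (tval m n) (GT m n) (mm m n) (ZC m n cs'))) := by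
  simp only [← psi_le_iff']
  constructor
  · intro h
    have h1 := psi_le_nn m n cs'
    refine ⟨List.replicate (psi m n cs) (), ?_, ?_, ?_⟩
    · rw [List.length_replicate]
      omega
    · rw [List.length_replicate]
    · rw [List.length_replicate]
      omega
  · rintro ⟨k, -, h1, h2⟩
    omega

theorem php_psi_lt (hd : Poly d) (hcs : Poly cs) {cs' : α → List Cst} (hcs' : Poly cs') :
    PHP (fun a => psi (dm (d a)) (dn (d a)) (cs a) < psi (dm (d a)) (dn (d a)) (cs' a)) := by
  refine (php_ex (P := fun a (k : List Unit) => k.length ≤ nn (dm (d a)) (dn (d a)) + 1 ∧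
      (Iso (nn (dm (d a)) (dn (d a))) k.length (YB (tval (dm (d a)) (dn (d a)))
        (GT (dm (d a)) (dn (d a))) (mm (dm (d a)) (dn (d a))) (ZC (dm (d a)) (dn (d a)) (cs a))) ∧
      ¬ Iso (nn (dm (d a)) (dn (d a))) k.length (YB (tval (dm (d a)) (dn (d a)))
        (GT (dm (d a)) (dn (d a))) (mm (dm (d a)) (dn (d a)))
          (ZC (dm (d a)) (dn (d a)) (cs' a))))) ?_
    (B := fun a => (nn (dm (d a)) (dn (d a)) + 1) * (1 + 1) + 1) ?_ ?_).congr
      fun a => (psi_lt_iff _ _ _ _).symm
  · refine PHP.and ?_ (PHP.and ?_ (PHP.not ?_))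
    · refine php_dec (d := fun p : α × List Unit =>
        decide (p.2.length ≤ nn (dm (d p.1)) (dn (d p.1)) + 1)) ?_ (fun p => by simp)
      exact NPC.Poly.decide_le (NPC.Poly.length (NPC.Poly.snd NPC.Poly.id))
        (wk ((u_nn hd).add (UPoly.const 1)).toPoly)
    · exact php_iso (d := fun p : α × List Unit => d p.1) (wk hd) (wk hcs)
        (NPC.Poly.snd NPC.Poly.id)
    · exact php_iso (d := fun p : α × List Unit => d p.1) (wk hd) (wk hcs')
        (NPC.Poly.snd NPC.Poly.id)
  · exact ((((u_nn hd).add (UPoly.const 1))).mul ((UPoly.const 1).add (UPoly.const 1))).add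
      (UPoly.const 1)
  · rintro a k ⟨hk, -⟩
    have h1 := sz_le_length_mul k 1 (fun u _ => by simp)
    exact h1.trans (Nat.add_le_add_right (Nat.mul_le_mul_right _ hk) _)

/-! ### Plans -/

theorem u_ee {d : α → Dim} (hd : Poly d) : UPoly (fun a => ee (dm (d a)) (dn (d a))) :=
  (u_rw hd).mul (u_ell' hd)

theorem poly_recs (hd : Poly d) {pb : α → List Bool} (hpb : Poly pb) {t : α → List Outcome}
    (ht : Poly t) : Poly (fun a => recs (dm (d a)) (dn (d a)) (pb a) (t a)) := by
  have h1 := g_recs (U := fun a => () :: (d a).1) (V := fun a => (d a).2)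
    (NPC.Poly.cons (NPC.Poly.const ()) (NPC.Poly.fst hd)) (NPC.Poly.snd hd) hpb ht
  exact h1.congr fun a => by simp only [List.length_cons]

theorem php_good (hd : Poly d) (hcs : Poly cs) {pb : α → List Bool} (hpb : Poly pb) :
    PHP (fun a => Good (dm (d a)) (dn (d a)) (cs a) (pb a)) := by
  have hd' : Poly (fun p : α × List Outcome => d p.1) := wk hd
  have hcs' : Poly (fun p : α × List Outcome => cs p.1) := wk hcs
  have hnew : Poly (fun p : α × List Outcome =>
      cs p.1 ++ recs (dm (d p.1)) (dn (d p.1)) (pb p.1) p.2) :=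
    NPC.Poly.append hcs' (poly_recs hd' (wk hpb) (NPC.Poly.snd NPC.Poly.id))
  refine php_all (R := fun a (t : List Outcome) => t.length = rw (dm (d a)) (dn (d a))) ?_
    ((php_psi_lt hd' hnew hcs').or (php_settled hd' hnew))
    (B := fun a => rw (dm (d a)) (dn (d a)) * (5 + 1) + 1) ?_ ?_
  · refine php_dec (d := fun p : α × List Outcome =>
      decide (p.2.length = rw (dm (d p.1)) (dn (d p.1)))) ?_ (fun p => by simp)
    exact NPC.Poly.decide_eq (NPC.Poly.length (NPC.Poly.snd NPC.Poly.id)) (wk (u_rw hd).toPoly)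
  · exact ((u_rw hd).mul ((UPoly.const 5).add (UPoly.const 1))).add (UPoly.const 1)
  · intro a t ht
    have h1 := sz_le_length_mul t 5 (fun o _ => by
      rcases o with _ | b
      · simp
      · rw [sz_some]
        have := sz_bool_le b
        omega)
    rw [ht] at h1
    exact h1

theorem php_planExt (hd : Poly d) (hcs : Poly cs) {cur : α → List Bool} (hcur : Poly cur) :
    PHP (fun a => PlanExt (dm (d a)) (dn (d a)) (cs a) (cur a)) := by
  refine php_ex (P := fun a (pb : List Bool) => (pb.length = ee (dm (d a)) (dn (d a)) ∧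
    ∀ i < (cur a).length, pb.getD i false = (cur a).getD i false) ∧
      Good (dm (d a)) (dn (d a)) (cs a) pb) ?_ (B := fun a => 4 * ee (dm (d a)) (dn (d a)) + 1)
    (((UPoly.const 4).mul (u_ee hd)).add (UPoly.const 1)) ?_
  · refine PHP.and ?_ (php_good (d := fun p : α × List Bool => d p.1) (wk hd) (wk hcs)
      (NPC.Poly.snd NPC.Poly.id))
    refine php_dec (d := fun p : α × List Bool =>
      decide (p.2.length = ee (dm (d p.1)) (dn (d p.1))) &&
        (List.range (cur p.1).length).all fun i =>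
          decide (p.2.getD i false = (cur p.1).getD i false)) ?_ ?_
    · refine NPC.Poly.and (NPC.Poly.decide_eq (NPC.Poly.length (NPC.Poly.snd NPC.Poly.id))
        (wk (u_ee hd).toPoly)) ?_
      refine NPC.Poly.all (p := fun (p : α × List Bool) i =>
        decide (p.2.getD i false = (cur p.1).getD i false))
        (UPoly.length (wk hcur)).range ?_
      exact NPC.Poly.decide_eq (NPC.Poly.getD (NPC.Poly.snd (NPC.Poly.fst NPC.Poly.id))
        (NPC.Poly.snd NPC.Poly.id) (NPC.Poly.const false))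
        (NPC.Poly.getD (wk (wk hcur)) (NPC.Poly.snd NPC.Poly.id) (NPC.Poly.const false))
    · intro p
      simp
  · rintro a pb ⟨⟨h1, -⟩, -⟩
    have := sz_listBool_le pb
    rw [h1] at this
    exact this

end

/-- **The oracle belongs to the polynomial hierarchy over `∃ℝ`.** -/
theorem orc_inPHER : InPHER orc := by
  have hd : Poly (fun q : Qst => q.1) := NPC.Poly.fst NPC.Poly.id
  have hcs : Poly (fun q : Qst => q.2.1) := NPC.Poly.fst (NPC.Poly.snd NPC.Poly.id)
  have hcur : Poly (fun q : Qst => q.2.2.1) :=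
    NPC.Poly.fst (NPC.Poly.snd (NPC.Poly.snd NPC.Poly.id))
  have htag : Poly (fun q : Qst => q.2.2.2) :=
    NPC.Poly.snd (NPC.Poly.snd (NPC.Poly.snd NPC.Poly.id))
  have h1 : PHP (fun q : Qst => q.2.2.2 = true) := PHP.poly htag
  have h2 : PHP (fun q : Qst => q.2.2.2 = false) := h1.not.congr fun q => by simp
  have h3 : PHP OrcP := (h1.and (php_fe hd hcs)).or (h2.and (php_planExt hd hcs hcur).not)
  exact h3

end Run7.h625.PHL
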