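import Pool.Agent.Run7.h625.PHL.Sem
import Pool.Agent.H622R3.SM.All

set_option autoImplicit false

/-!
# Formulas for constraints on the signs of minors
-/

namespace Run7.h625.PHL

open Pool.Agent Pool.Agent.NPC Pool.Agent.NPC.ER Pool.Agent.NPC.H612 Pool.Agent.H558R2
open Pool.Agent.H622R3.SM

/-- The sign of a term belongs to a list. -/
def signsFm (t : Tm) (os : List Outcome) : Fm := Fm.not (conj (os.map fun o => Fm.not (signFm t o)))

/-- The constraint `p` holds (registers with number `q`). -/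
def cstFm (m n q : ℕ) (p : Cst) : Fm :=
  Fm.and (conj ((minorProg m n (p.1.map some) 0).map (instrFm 0 q)))
    (signsFm (regT 0 q [11]) p.2)

/-- All constraints hold. -/
def consF (m n : ℕ) (cs : List Cst) : Fm := conj (cs.zipIdx.map fun p => cstFm m n p.2 p.1)

/-- Some feasible input satisfies the constraints. -/
def feF (m n : ℕ) (cs : List Cst) : Fm := Fm.and (consF m n cs) (feasFm m n 0)

/-- Some infeasible input satisfies the constraints. -/
def infF (m n : ℕ) (cs : List Cst) : Fm := Fm.and (consF m n cs) (infFm m n 0)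

theorem signFm_holds (x : ℕ → ℝ) (t : Tm) (o : Outcome) :
    (signFm t o).Holds x ↔ signOut (t.eval x) = o := by
  constructor
  · exact TMF.sign_sound x t o
  · rintro rfl
    exact TVAL.sign_holds x t _ rfl

theorem signsFm_holds (x : ℕ → ℝ) (t : Tm) (os : List Outcome) :
    (signsFm t os).Holds x ↔ signOut (t.eval x) ∈ os := by
  unfold signsFm
  show ¬ (conj _).Holds x ↔ _
  rw [holds_conj]
  simp only [List.mem_map, forall_exists_index, and_imp, forall_apply_eq_imp_iff₂]
  have h : ∀ o, (Fm.not (signFm t o)).Holds x ↔ ¬ signOut (t.eval x) = o := by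
    intro o
    rw [← signFm_holds]
    rfl
  simp only [h]
  push Not
  constructor
  · rintro ⟨o, ho, h1⟩
    rw [h1]
    exact ho
  · intro h1
    exact ⟨_, h1, rfl⟩

theorem consF_holds (m n : ℕ) (cs : List Cst) (x : ℕ → ℝ) :
    (consF m n cs).Holds x ↔ ∀ q p, cs[q]? = some p → (cstFm m n q p).Holds x := by
  unfold consF
  rw [holds_conj]
  constructor
  · intro h q p hq
    exact h _ (List.mem_map.2 ⟨(p, q), List.mem_zipIdx_iff_getElem?.2 hq, rfl⟩)
  · intro h φ hφ
    obtain ⟨⟨p, q⟩, hp, rfl⟩ := List.mem_map.1 hφ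
    exact h q p (List.mem_zipIdx_iff_getElem?.1 hp)

theorem consF_sound {m n : ℕ} (hm : 1 ≤ m) {cs : List Cst} {x : ℕ → ℝ}
    (h : (consF m n cs).Holds x) : inst m n 0 x ∈ ZC m n cs := by
  rw [consF_holds] at h
  intro p hp
  obtain ⟨q, hq⟩ := List.mem_iff_getElem?.1 hp
  obtain ⟨h1, h2⟩ := h q p hq
  rw [holds_conj] at h1
  rw [signsFm_holds] at h2
  have h4 := t_UNI m n (p.1.map some) 0 (inst m n 0 x) (fun r => (regT 0 q r).eval x) hm
    (by intro i j hi hj; simp [regT, inst, Tm.eval]) (by intro i hi; simp [regT, inst, Tm.eval])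
    (by simp [regT, Tm.eval]) (by simp [regT, Tm.eval])
    (fun I hI => TMF.instr_sound 0 q x I (h1 _ (List.mem_map.2 ⟨I, hI, rfl⟩)))
  unfold sgn betaU
  rw [← h4]
  exact h2

/-- The minor of the constraint number `q`. -/
def ucs (cs : List Cst) (q : ℕ) : List Bool := (cs[q]?.map Prod.fst).getD []

/-- The values of the names. -/
noncomputable def value' (m n : ℕ) (cs : List Cst) (a : Inp m n) (u v : ℕ → ℝ) : List ℕ → ℝ
  | 0 :: _ :: r => start a.1 a.2 r
  | 1 :: _ :: q :: r => vreg m n ((ucs cs q).map some) 0 a r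
  | [2, _, j] => u j
  | [3, _, i] => v i
  | _ => 0

theorem regT_eval' {m n : ℕ} {cs : List Cst} {a : Inp m n} {u v : ℕ → ℝ} {x : ℕ → ℝ}
    (hx : ∀ r, x (vx r) = value' m n cs a u v r) (q : ℕ)
    (hbase : ∀ r ∈ baseReg, vreg m n ((ucs cs q).map some) 0 a r = start a.1 a.2 r) (r : Reg) :
    (regT 0 q r).eval x = vreg m n ((ucs cs q).map some) 0 a r := by
  unfold regT
  split_ifs with h1 h2 h3
  · have h4 : r ∈ baseReg := by
      rw [h1]
      show (2 : ℕ) < 4
      norm_num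
    rw [hbase r h4, h1]
    rfl
  · have h4 : r ∈ baseReg := by
      rw [h2]
      show (3 : ℕ) < 4
      norm_num
    rw [hbase r h4, h2]
    rfl
  · have h4 : r ∈ baseReg := by
      show r.headD 0 < 4
      omega
    rw [hbase r h4]
    exact hx _
  · exact hx _

theorem consF_complete {m n : ℕ} (hm : 1 ≤ m) {cs : List Cst} {a : Inp m n}
    (ha : a ∈ ZC m n cs) (u v : ℕ → ℝ) : ∃ x : ℕ → ℝ, inst m n 0 x = a ∧
      (consF m n cs).Holds x ∧ (∀ j, x (vx (2 :: 0 :: [j])) = u j) ∧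
      (∀ i, x (vx (3 :: 0 :: [i])) = v i) := by
  have hx : ∀ r, (Function.extend vx (value' m n cs a u v) 0) (vx r) = value' m n cs a u v r :=
    fun r => Function.Injective.extend_apply t_VX _ _ r
  refine ⟨Function.extend vx (value' m n cs a u v) 0, ?_, ?_, ?_, ?_⟩
  · unfold inst
    apply Prod.ext
    · funext i j
      show (Function.extend vx (value' m n cs a u v) 0) (vx (0 :: 0 :: [0, (i : ℕ), (j : ℕ)])) =
        a.1 i j
      rw [hx]
      show start a.1 a.2 [0, (i : ℕ), (j : ℕ)] = a.1 i j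
      show (if h : (i : ℕ) < m ∧ (j : ℕ) < n then a.1 ⟨i, h.1⟩ ⟨j, h.2⟩ else 0) = a.1 i j
      rw [dif_pos (show (i : ℕ) < m ∧ (j : ℕ) < n from ⟨i.2, j.2⟩)]
    · funext i
      show (Function.extend vx (value' m n cs a u v) 0) (vx (0 :: 0 :: [1, (i : ℕ)])) = a.2 i
      rw [hx]
      show start a.1 a.2 [1, (i : ℕ)] = a.2 i
      show (if h : (i : ℕ) < m then a.2 ⟨i, h⟩ else 0) = a.2 i
      rw [dif_pos i.2]
  · rw [consF_holds]
    intro q p hq
    have hu : ucs cs q = p.1 := by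
      unfold ucs
      rw [hq]
      rfl
    obtain ⟨hbase, hprog⟩ := t_EQ m n ((ucs cs q).map some) 0 a hm
    have hreg := regT_eval' hx q hbase
    refine ⟨?_, ?_⟩
    · rw [holds_conj]
      intro ψ hψ
      rw [List.mem_map] at hψ
      obtain ⟨I, hI, rfl⟩ := hψ
      rw [← hu] at hI
      obtain ⟨e1, e2⟩ := hprog I hI
      exact TVAL.instr_holds _ 0 q _ hreg I e1 e2
    · rw [signsFm_holds, hreg]
      have h1 := ha p (List.mem_of_getElem? hq)
      rw [← hu] at h1
      exact h1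
  · intro j
    rw [hx]
    rfl
  · intro i
    rw [hx]
    rfl

theorem etr_ne {m n : ℕ} (hm : 1 ≤ m) (cs : List Cst) :
    ETR (consF m n cs) ↔ (ZC m n cs).Nonempty := by
  constructor
  · rintro ⟨x, hx⟩
    exact ⟨_, consF_sound hm hx⟩
  · rintro ⟨a, ha⟩
    obtain ⟨x, -, hx, -⟩ := consF_complete hm ha (fun _ => 0) (fun _ => 0)
    exact ⟨x, hx⟩

theorem etr_fe {m n : ℕ} (hm : 1 ≤ m) (cs : List Cst) :
    ETR (feF m n cs) ↔ ∃ a ∈ ZC m n cs, Feas a := by
  constructor
  · rintro ⟨x, h1, h2⟩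
    exact ⟨_, consF_sound hm h1, fun j => x (vx (2 :: 0 :: [(j : ℕ)])), ((t_FI m n 0 x).1.1 h2)⟩
  · rintro ⟨a, ha, s, hs⟩
    obtain ⟨x, hx1, hx2, hx3, -⟩ := consF_complete hm ha
      (fun j => if hj : j < n then s ⟨j, hj⟩ else 0) (fun _ => 0)
    exact ⟨x, hx2, TBOTH.feas_to t_FI 0 hx1 s hs (fun j => by rw [hx3]; simp)⟩

theorem etr_inf {m n : ℕ} (hm : 1 ≤ m) (cs : List Cst) :
    ETR (infF m n cs) ↔ ∃ a ∈ ZC m n cs, ¬ Feas a := by
  constructor
  · rintro ⟨x, h1, h2⟩
    exact ⟨_, consF_sound hm h1, (t_FARKAS m n _).2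
      ⟨fun i => x (vx (3 :: 0 :: [(i : ℕ)])), ((t_FI m n 0 x).2.1 h2)⟩⟩
  · rintro ⟨a, ha, hn⟩
    obtain ⟨y, hy⟩ := (t_FARKAS m n a).1 hn
    obtain ⟨x, hx1, hx2, -, hx4⟩ := consF_complete hm ha (fun _ => 0)
      (fun i => if hi : i < m then y ⟨i, hi⟩ else 0)
    exact ⟨x, hx2, TBOTH.inf_to t_FI 0 hx1 y hy (fun i => by rw [hx4]; simp)⟩

/-! ### The formulas are computed in polynomial time -/

/-- Dimensions: `m - 1` and `n` in unary. -/
abbrev Dim : Type := List Unit × List Unit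

/-- The number of rows. -/
abbrev dm (d : Dim) : ℕ := d.1.length + 1

/-- The number of columns. -/
abbrev dn (d : Dim) : ℕ := d.2.length

section

variable {α : Type} [TEnc α]

theorem poly_dim {d : α → Dim} (hd : Poly d) {h : α → List Outcome} (hh : Poly h) :
    Poly (fun a => (((() :: (d a).1, (d a).2), h a) : HistIn)) :=
  NPC.Poly.pair (NPC.Poly.pair (NPC.Poly.cons (NPC.Poly.const ()) (NPC.Poly.fst hd))
    (NPC.Poly.snd hd)) hh

theorem u_ell' {d : α → Dim} (hd : Poly d) : UPoly (fun a => ell (dm (d a)) (dn (d a))) :=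
  t_UP.1.comp (poly_dim hd (NPC.Poly.const []))

theorem u_pexp' {d : α → Dim} (hd : Poly d) : UPoly (fun a => pexp (dm (d a)) (dn (d a))) :=
  TUP.u_pexp.comp (poly_dim hd (NPC.Poly.const []))

theorem u_cc {d : α → Dim} (hd : Poly d) : UPoly (fun a => cc (dm (d a)) (dn (d a))) :=
  (((u_pexp' hd).mul (((UPoly.const 4).mul (u_ell' hd)).add (UPoly.const 6))).add (UPoly.const 2))

theorem u_mm {d : α → Dim} (hd : Poly d) : UPoly (fun a => mm (dm (d a)) (dn (d a))) :=
  ((UPoly.const 2).mul (u_cc hd)).add (UPoly.const 16)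

theorem u_nn {d : α → Dim} (hd : Poly d) : UPoly (fun a => nn (dm (d a)) (dn (d a))) :=
  ((u_mm hd).mul (u_cc hd)).add (UPoly.const 1)

theorem u_dm {d : α → Dim} (hd : Poly d) : UPoly (fun a => dm (d a)) :=
  (UPoly.length (NPC.Poly.fst hd)).add (UPoly.const 1)

theorem u_dn {d : α → Dim} (hd : Poly d) : UPoly (fun a => dn (d a)) :=
  UPoly.length (NPC.Poly.snd hd)

theorem u_rw {d : α → Dim} (hd : Poly d) : UPoly (fun a => rw (dm (d a)) (dn (d a))) :=
  (((UPoly.const 2).mul (u_dm hd)).add ((UPoly.const 2).mul (u_dn hd))).add (UPoly.const 4)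

theorem poly_mapSome {u : α → List Bool} (hu : Poly u) : Poly (fun a => (u a).map some) :=
  NPC.Poly.map (F := fun (_ : α) b => some b) hu (NPC.Poly.some (NPC.Poly.snd NPC.Poly.id))

theorem poly_minorProg {d : α → Dim} (hd : Poly d) {u : α → List Bool} (hu : Poly u) :
    Poly (fun a => minorProg (dm (d a)) (dn (d a)) ((u a).map some) 0) := by
  have h1 : Poly (fun a => ((((() :: (d a).1, (d a).2), (u a).map some) : HistIn), (0 : ℕ))) :=
    NPC.Poly.pair (poly_dim hd (poly_mapSome hu)) (NPC.Poly.const 0)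
  have h2 := NPC.Poly.comp (g := fun p : HistIn × ℕ =>
    minorProg p.1.1.1.length p.1.1.2.length p.1.2 p.2) (f := fun a => ((((() :: (d a).1, (d a).2),
      (u a).map some) : HistIn), (0 : ℕ))) h_PM h1
  exact h2.congr fun a => by simp only [List.length_cons]

theorem poly_signsFm {t : α → Tm} {os : α → List Outcome} (ht : Poly t) (hos : Poly os) :
    Poly (fun a => signsFm (t a) (os a)) := by
  unfold signsFm
  refine poly_fnot (poly_conj (NPC.Poly.map (F := fun (a : α) o => Fm.not (signFm (t a) o)) hos ?_))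
  exact poly_fnot (TPF.poly_signFm (NPC.Poly.comp (f := fun x : α × Outcome => x.1) ht
    (NPC.Poly.fst NPC.Poly.id)) (NPC.Poly.snd NPC.Poly.id))

theorem poly_cstFm {d : α → Dim} (hd : Poly d) {q : α → ℕ} (hq : Poly q) {p : α → Cst}
    (hp : Poly p) : Poly (fun a => cstFm (dm (d a)) (dn (d a)) (q a) (p a)) := by
  unfold cstFm
  refine poly_fand (poly_conj ?_) (poly_signsFm (TPF.poly_regT (NPC.Poly.const 0) hq
    (NPC.Poly.const _)) (NPC.Poly.snd hp))
  exact NPC.Poly.map (F := fun (a : α) I => instrFm 0 (q a) I)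
    (poly_minorProg hd (NPC.Poly.fst hp))
    (TPF.poly_instrFm (NPC.Poly.const 0) (NPC.Poly.comp (f := fun x : α × Instr => x.1) hq
      (NPC.Poly.fst NPC.Poly.id)) (NPC.Poly.snd NPC.Poly.id))

theorem poly_consF {d : α → Dim} (hd : Poly d) {cs : α → List Cst} (hcs : Poly cs) :
    Poly (fun a => consF (dm (d a)) (dn (d a)) (cs a)) := by
  unfold consF
  refine poly_conj (NPC.Poly.map (F := fun (a : α) (p : Cst × ℕ) =>
    cstFm (dm (d a)) (dn (d a)) p.2 p.1) (NPC.Poly.zipIdx hcs) ?_)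
  exact poly_cstFm (d := fun x : α × (Cst × ℕ) => d x.1)
    (NPC.Poly.comp (f := fun x : α × (Cst × ℕ) => x.1) hd (NPC.Poly.fst NPC.Poly.id))
    (NPC.Poly.snd (NPC.Poly.snd NPC.Poly.id)) (NPC.Poly.fst (NPC.Poly.snd NPC.Poly.id))

theorem poly_feas' {d : α → Dim} (hd : Poly d) : Poly (fun a => feasFm (dm (d a)) (dn (d a)) 0) := by
  have h2 := NPC.Poly.comp (g := fun p : HistIn => feasFm p.1.1.length p.1.2.length 0)
    (f := fun a => (((() :: (d a).1, (d a).2), []) : HistIn)) (TPF.poly_feasFm 0)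
    (poly_dim hd (NPC.Poly.const []))
  exact h2.congr fun a => by simp only [List.length_cons]

theorem poly_inf' {d : α → Dim} (hd : Poly d) : Poly (fun a => infFm (dm (d a)) (dn (d a)) 0) := by
  have h2 := NPC.Poly.comp (g := fun p : HistIn => infFm p.1.1.length p.1.2.length 0)
    (f := fun a => (((() :: (d a).1, (d a).2), []) : HistIn)) (TPF.poly_infFm 0)
    (poly_dim hd (NPC.Poly.const []))
  exact h2.congr fun a => by simp only [List.length_cons]

theorem poly_feF {d : α → Dim} (hd : Poly d) {cs : α → List Cst} (hcs : Poly cs) :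
    Poly (fun a => feF (dm (d a)) (dn (d a)) (cs a)) := by
  unfold feF
  exact poly_fand (poly_consF hd hcs) (poly_feas' hd)

theorem poly_infF {d : α → Dim} (hd : Poly d) {cs : α → List Cst} (hcs : Poly cs) :
    Poly (fun a => infF (dm (d a)) (dn (d a)) (cs a)) := by
  unfold infF
  exact poly_fand (poly_consF hd hcs) (poly_inf' hd)

end

end Run7.h625.PHL
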