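import Pool.Agent.Run7.h625.PHL.Sem2
import Pool.Agent.Run7.h625.PHL.Form

set_option autoImplicit false

/-!
# The algorithm and its oracle
-/

namespace Run7.h625.PHL

open Pool.Agent Pool.Agent.NPC Pool.Agent.NPC.ER Pool.Agent.NPC.H612 Pool.Agent.H558R2
open Pool.Agent.H622R3.SM

/-- The number of bits of a plan. -/
def ee (m n : ℕ) : ℕ := rw m n * ell m n

/-- The number of outcomes in a round: the bits of the plan, then the signs of the minors. -/
def ww (m n : ℕ) : ℕ := ee m n + rw m n

/-- The number of outcomes in all rounds. -/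
def ttl (m n : ℕ) : ℕ := (nn m n + 2) * ww m n

/-- An outcome as a bit. -/
def hbit (h : List Outcome) (k : ℕ) : Bool := decide (h.getD k none = some true)

/-- The first `k` bits of the plan of the round number `r`. -/
def pbOf (m n : ℕ) (h : List Outcome) (r k : ℕ) : List Bool :=
  (List.range k).map fun i => hbit h (r * ww m n + i)

/-- The outcomes of the minors of the round number `r`. -/
def sgOf (m n : ℕ) (h : List Outcome) (r : ℕ) : List Outcome :=
  (List.range (rw m n)).map fun j => h.getD (r * ww m n + ee m n + j) none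

/-- The constraints recorded in the first `r` rounds. -/
def csOf (m n : ℕ) (h : List Outcome) (r : ℕ) : List Cst :=
  (List.range r).flatMap fun r' => recs m n (pbOf m n h r' (ee m n)) (sgOf m n h r')

/-- Questions: dimensions, constraints, the beginning of a plan, and a tag. -/
abbrev Qst : Type := Dim × (List Cst × (List Bool × Bool))

/-- The dimensions in unary. -/
def dimOf (m n : ℕ) : Dim := (List.replicate (m - 1) (), List.replicate n ())

/-- There is a feasible input satisfying the constraints. -/
def Fe (m n : ℕ) (cs : List Cst) : Prop := ∃ a ∈ ZC m n cs, Feas a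

/-- There is a good plan for the constraints `cs` which begins with the bits `cur`. -/
def PlanExt (m n : ℕ) (cs : List Cst) (cur : List Bool) : Prop :=
  ∃ pb : List Bool, (pb.length = ee m n ∧ ∀ i < cur.length, pb.getD i false = cur.getD i false) ∧
    Good m n cs pb

/-- The oracle, on questions. -/
def OrcP (q : Qst) : Prop :=
  (q.2.2.2 = true ∧ Fe (dm q.1) (dn q.1) q.2.1) ∨
    (q.2.2.2 = false ∧ ¬ PlanExt (dm q.1) (dn q.1) q.2.1 q.2.2.1)

/-- The oracle. -/
def orc : Set (List Bool) := lang OrcP

/-- The algorithm. -/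
def alg : Alg := fun m n h =>
  if h.length < ttl m n then
    (if h.length % ww m n < ee m n then
      ([], Test.ask (bits ((dimOf m n, (csOf m n h (h.length / ww m n),
        (pbOf m n h (h.length / ww m n) (h.length % ww m n) ++ [false], false))) : Qst)))
      else (minorProg m n ((chunk m n (pbOf m n h (h.length / ww m n) (ee m n))
        (h.length % ww m n - ee m n)).map some) 0, Test.sign [11]))
  else if h.length = ttl m n then
    ([], Test.ask (bits ((dimOf m n, (csOf m n h (nn m n + 2), ([], true))) : Qst)))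
  else ([], Test.answer (decide ((h.reverse.head?).getD none = some true)))

theorem rw_pos (m n : ℕ) : 0 < rw m n := by unfold rw; omega

theorem dm_dimOf {m : ℕ} (n : ℕ) (hm : 1 ≤ m) : dm (dimOf m n) = m := by
  simp only [dm, dimOf, List.length_replicate]
  omega

theorem dn_dimOf (m n : ℕ) : dn (dimOf m n) = n := by
  simp only [dn, dimOf, List.length_replicate]

theorem mem_orc_final {m n : ℕ} (hm : 1 ≤ m) (cs : List Cst) :
    bits ((dimOf m n, (cs, ([], true))) : Qst) ∈ orc ↔ Fe m n cs := by
  unfold orc
  rw [bits_mem_lang]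
  unfold OrcP
  simp only [dm_dimOf n hm, dn_dimOf]
  simp

theorem mem_orc_plan {m n : ℕ} (hm : 1 ≤ m) (cs : List Cst) (cur : List Bool) :
    bits ((dimOf m n, (cs, (cur, false))) : Qst) ∈ orc ↔ ¬ PlanExt m n cs cur := by
  unfold orc
  rw [bits_mem_lang]
  unfold OrcP
  simp only [dm_dimOf n hm, dn_dimOf]
  simp

theorem getD_app {h : List Outcome} {o : Outcome} {k : ℕ} (hk : k < h.length) :
    (h ++ [o]).getD k none = h.getD k none := List.getD_append _ _ _ _ hk

theorem getD_last (h : List Outcome) (o : Outcome) : (h ++ [o]).getD h.length none = o := by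
  rw [List.getD_append_right _ _ _ _ le_rfl]
  simp

theorem hbit_app {h : List Outcome} {o : Outcome} {k : ℕ} (hk : k < h.length) :
    hbit (h ++ [o]) k = hbit h k := by
  unfold hbit
  rw [getD_app hk]

theorem pbOf_app {m n : ℕ} {h : List Outcome} (o : Outcome) {r k : ℕ}
    (hk : r * ww m n + k ≤ h.length) : pbOf m n (h ++ [o]) r k = pbOf m n h r k := by
  unfold pbOf
  apply List.map_congr_left
  intro i hi
  rw [List.mem_range] at hi
  exact hbit_app (by omega)

theorem sgOf_app {m n : ℕ} {h : List Outcome} (o : Outcome) {r : ℕ}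
    (hk : (r + 1) * ww m n ≤ h.length) : sgOf m n (h ++ [o]) r = sgOf m n h r := by
  unfold sgOf
  apply List.map_congr_left
  intro i hi
  rw [List.mem_range] at hi
  apply getD_app
  have e1 : (r + 1) * ww m n = r * ww m n + ww m n := by ring
  have e2 : ww m n = ee m n + rw m n := rfl
  omega

theorem csOf_app {m n : ℕ} {h : List Outcome} (o : Outcome) {r : ℕ}
    (hk : r * ww m n ≤ h.length) : csOf m n (h ++ [o]) r = csOf m n h r := by
  unfold csOf
  rw [List.flatMap_def, List.flatMap_def]
  congr 1
  apply List.map_congr_left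
  intro r' hr
  rw [List.mem_range] at hr
  have h1 : (r' + 1) * ww m n ≤ r * ww m n := Nat.mul_le_mul_right _ hr
  have e1 : (r' + 1) * ww m n = r' * ww m n + ww m n := by ring
  have e2 : ww m n = ee m n + rw m n := rfl
  rw [pbOf_app o (by omega), sgOf_app o (by omega)]

theorem csOf_succ (m n : ℕ) (h : List Outcome) (r : ℕ) : csOf m n h (r + 1) =
    csOf m n h r ++ recs m n (pbOf m n h r (ee m n)) (sgOf m n h r) := by
  unfold csOf
  rw [List.range_succ, List.flatMap_append, List.flatMap_singleton]

theorem getD_pbOf {m n : ℕ} {h : List Outcome} {r k i : ℕ} (hi : i < k) :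
    (pbOf m n h r k).getD i false = hbit h (r * ww m n + i) := by
  unfold pbOf
  rw [List.getD_eq_getElem?_getD, List.getElem?_map, List.getElem?_range hi]
  rfl

theorem getD_sgOf {m n : ℕ} {h : List Outcome} {r j : ℕ} (hj : j < rw m n) :
    (sgOf m n h r).getD j none = h.getD (r * ww m n + ee m n + j) none := by
  unfold sgOf
  rw [List.getD_eq_getElem?_getD, List.getElem?_map, List.getElem?_range hj]
  rfl

/-- The invariant of the run: `i` outcomes of the round number `r` are known. -/
def Inv (m n : ℕ) (a : Inp m n) (h : List Outcome) (r i : ℕ) : Prop :=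
  a ∈ ZC m n (csOf m n h r) ∧
  (psi m n (csOf m n h r) + r ≤ nn m n + 2 ∨ Settled m n (csOf m n h r)) ∧
  ∃ pb : List Bool, pb.length = ee m n ∧ Good m n (csOf m n h r) pb ∧
    (∀ k, k < ee m n → k < i → pb.getD k false = hbit h (r * ww m n + k)) ∧
    ∀ j, j < rw m n → ee m n + j < i →
      h.getD (r * ww m n + ee m n + j) none = sgn m n a (chunk m n pb j)

theorem settled_mono {m n : ℕ} {cs cs' : List Cst} (h : Settled m n cs)
    (hs : ZC m n cs' ⊆ ZC m n cs) : Settled m n cs' := by
  rintro ⟨⟨a, ha, h1⟩, ⟨b, hb, h2⟩⟩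
  exact h ⟨⟨a, hs ha, h1⟩, ⟨b, hs hb, h2⟩⟩

/-- The invariant holds at the beginning. -/
theorem inv_zero (m n : ℕ) (a : Inp m n) : Inv m n a [] 0 0 := by
  have e : csOf m n [] 0 = [] := rfl
  obtain ⟨pb, h1, h2⟩ := exists_goodBits m n []
  refine ⟨?_, Or.inl ?_, pb, h1, ?_, ?_, ?_⟩
  · rw [e]
    intro p hp
    simp at hp
  · rw [e]
    exact psi_le_nn m n []
  · rw [e]
    exact h2
  · intro k _ h3
    omega
  · intro j _ h3
    omega

open Classical in
/-- A question about the plan. -/
theorem inv_ask {m n : ℕ} {a : Inp m n} {h : List Outcome} {r i : ℕ} (hm : 1 ≤ m)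
    (hl : h.length = r * ww m n + i) (hi : i < ee m n) (hv : Inv m n a h r i) :
    Inv m n a (h ++ [some (decide (bits ((dimOf m n, (csOf m n h r,
      (pbOf m n h r i ++ [false], false))) : Qst) ∈ orc))]) r (i + 1) := by
  obtain ⟨h1, h2, pb, h3, h4, h5, h6⟩ := hv
  have hcs : ∀ o : Outcome, csOf m n (h ++ [o]) r = csOf m n h r :=
    fun o => csOf_app o (by omega)
  have hlast : ∀ b : Bool, hbit (h ++ [some b]) (r * ww m n + i) = b := by
    intro b
    unfold hbit
    rw [← hl, getD_last]
    cases b <;> simp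
  refine ⟨by rw [hcs]; exact h1, by rw [hcs]; exact h2, ?_⟩
  rw [hcs]
  have hcur : ∀ k, k < (pbOf m n h r i ++ [false]).length → (k < i ∧
      (pbOf m n h r i ++ [false]).getD k false = hbit h (r * ww m n + k)) ∨ (k = i ∧
      (pbOf m n h r i ++ [false]).getD k false = false) := by
    intro k hk
    have hlen : (pbOf m n h r i).length = i := by simp [pbOf]
    rw [List.length_append, hlen, List.length_singleton] at hk
    rcases Nat.lt_or_ge k i with h7 | h7
    · left
      refine ⟨h7, ?_⟩
      rw [List.getD_append _ _ _ _ (by omega), getD_pbOf h7]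
    · right
      have h8 : k = i := by omega
      refine ⟨h8, ?_⟩
      rw [List.getD_append_right _ _ _ _ (by omega), hlen, h8, Nat.sub_self]
      rfl
  by_cases hq : bits ((dimOf m n, (csOf m n h r, (pbOf m n h r i ++ [false], false))) : Qst) ∈ orc
  · rw [decide_eq_true hq]
    rw [mem_orc_plan hm] at hq
    refine ⟨pb, h3, h4, ?_, fun j _ h7 => by omega⟩
    intro k hk hk'
    rcases Nat.lt_or_ge k i with h7 | h7
    · rw [hbit_app (by omega)]
      exact h5 k hk h7
    · have h8 : k = i := by omega
      subst h8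
      rw [hlast]
      by_contra h9
      rw [Bool.not_eq_true] at h9
      apply hq
      refine ⟨pb, ⟨h3, fun k' hk' => ?_⟩, h4⟩
      rcases hcur k' hk' with ⟨e1, e2⟩ | ⟨e1, e2⟩
      · rw [e2]
        exact h5 k' (by omega) e1
      · rw [e2, e1]
        exact h9
  · rw [decide_eq_false hq]
    rw [mem_orc_plan hm, not_not] at hq
    obtain ⟨pb', ⟨g1, g2⟩, g3⟩ := hq
    refine ⟨pb', g1, g3, ?_, fun j _ h7 => by omega⟩
    intro k hk hk'
    have hlen : (pbOf m n h r i ++ [false]).length = i + 1 := by simp [pbOf]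
    have g4 := g2 k (by omega)
    rcases hcur k (by omega) with ⟨e1, e2⟩ | ⟨e1, e2⟩
    · rw [hbit_app (by omega), g4, e2]
    · rw [e1, hlast, ← e1, g4, e2]

/-- The plan of the invariant is the recorded one once all bits are known. -/
theorem inv_plan {m n : ℕ} {h : List Outcome} {r i : ℕ} {pb : List Bool} (hi : ee m n ≤ i)
    (h3 : pb.length = ee m n)
    (h5 : ∀ k, k < ee m n → k < i → pb.getD k false = hbit h (r * ww m n + k)) :
    pbOf m n h r (ee m n) = pb := by
  apply List.ext_getElem
  · simp [pbOf, h3]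
  · intro k h1 h2
    rw [List.getElem_eq_getD false, List.getElem_eq_getD (l := pb) false, getD_pbOf (by omega),
      h5 k (by omega) (by omega)]

/-- The sign of a minor, inside a round. -/
theorem inv_sign {m n : ℕ} {a : Inp m n} {h : List Outcome} {r i : ℕ}
    (hl : h.length = r * ww m n + i) (hi : ee m n ≤ i) (hi' : i + 1 < ww m n)
    (hv : Inv m n a h r i) :
    Inv m n a (h ++ [sgn m n a (chunk m n (pbOf m n h r (ee m n)) (i - ee m n))]) r (i + 1) := by
  obtain ⟨h1, h2, pb, h3, h4, h5, h6⟩ := hv
  have hpb := inv_plan hi h3 h5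
  have hcs : ∀ o : Outcome, csOf m n (h ++ [o]) r = csOf m n h r :=
    fun o => csOf_app o (by omega)
  refine ⟨by rw [hcs]; exact h1, by rw [hcs]; exact h2, pb, h3, by rw [hcs]; exact h4, ?_, ?_⟩
  · intro k hk _
    rw [hbit_app (by omega)]
    exact h5 k hk (by omega)
  · intro j hj hj'
    rcases Nat.lt_or_ge (ee m n + j) i with h7 | h7
    · rw [getD_app (by omega)]
      exact h6 j hj h7
    · have h8 : r * ww m n + ee m n + j = h.length := by omega
      rw [h8, getD_last, hpb]
      congr 2
      omega

/-- The sign of the last minor of a round. -/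
theorem inv_end {m n : ℕ} {a : Inp m n} {h : List Outcome} {r i : ℕ}
    (hl : h.length = r * ww m n + i) (hi : ee m n ≤ i) (hi' : i + 1 = ww m n)
    (hv : Inv m n a h r i) :
    Inv m n a (h ++ [sgn m n a (chunk m n (pbOf m n h r (ee m n)) (i - ee m n))]) (r + 1) 0 := by
  obtain ⟨h1, h2, pb, h3, h4, h5, h6⟩ := hv
  have hpb := inv_plan hi h3 h5
  have e2 : ww m n = ee m n + rw m n := rfl
  set o := sgn m n a (chunk m n (pbOf m n h r (ee m n)) (i - ee m n)) with ho
  have hcs : csOf m n (h ++ [o]) (r + 1) =
      csOf m n h r ++ recs m n pb (sgOf m n (h ++ [o]) r) := by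
    rw [csOf_succ, csOf_app o (by omega), pbOf_app o (by omega), hpb]
  have hsg : ∀ j, j < rw m n → (h ++ [o]).getD (r * ww m n + ee m n + j) none =
      sgn m n a (chunk m n pb j) := by
    intro j hj
    rcases Nat.lt_or_ge (ee m n + j) i with h7 | h7
    · rw [getD_app (by omega)]
      exact h6 j hj h7
    · have h8 : r * ww m n + ee m n + j = h.length := by omega
      rw [h8, getD_last, ho, hpb]
      congr 2
      omega
  have hmem : a ∈ ZC m n (csOf m n h r ++ recs m n pb (sgOf m n (h ++ [o]) r)) := by
    rw [zc_append]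
    refine ⟨h1, ?_⟩
    intro p hp
    unfold recs at hp
    obtain ⟨j, hj, rfl⟩ := List.mem_map.1 hp
    rw [List.mem_range] at hj
    simp only [List.mem_singleton]
    rw [getD_sgOf hj, hsg j hj]
  have hsub : ZC m n (csOf m n h r ++ recs m n pb (sgOf m n (h ++ [o]) r)) ⊆
      ZC m n (csOf m n h r) := by
    rw [zc_append]
    exact Set.inter_subset_left
  obtain ⟨pb', g1, g2⟩ := exists_goodBits m n
    (csOf m n h r ++ recs m n pb (sgOf m n (h ++ [o]) r))
  unfold Inv
  rw [hcs]
  refine ⟨hmem, ?_, pb', g1, g2, fun k _ h7 => by omega, fun j _ h7 => by omega⟩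
  rcases h4 (sgOf m n (h ++ [o]) r) (by simp [sgOf]) with h7 | h7
  · rcases h2 with h8 | h8
    · left
      omega
    · right
      exact settled_mono h8 hsub
  · right
    exact h7

end Run7.h625.PHL
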