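import Pool.Agent.Run7.h625.PHL.AlgDef

set_option autoImplicit false

/-!
# The control of the algorithm is computed in polynomial time
-/

namespace Run7.h625.PHL

open Pool.Agent Pool.Agent.NPC Pool.Agent.NPC.ER Pool.Agent.NPC.H612 Pool.Agent.H558R2
open Pool.Agent.H622R3.SM

section

variable {α : Type} [TEnc α] {U V : α → List Unit} (hU : Poly U) (hV : Poly V)

include hU hV

theorem g_hist : Poly (fun a => ((U a, V a), ([] : List Outcome))) :=
  NPC.Poly.pair (NPC.Poly.pair hU hV) (NPC.Poly.const [])

theorem g_ell : UPoly (fun a => ell (U a).length (V a).length) :=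
  TUP.u_ell.comp (g_hist hU hV)

theorem g_pexp : UPoly (fun a => pexp (U a).length (V a).length) :=
  TUP.u_pexp.comp (g_hist hU hV)

theorem g_cc : UPoly (fun a => cc (U a).length (V a).length) :=
  (((g_pexp hU hV).mul (((UPoly.const 4).mul (g_ell hU hV)).add (UPoly.const 6))).add
    (UPoly.const 2))

theorem g_mm : UPoly (fun a => mm (U a).length (V a).length) :=
  ((UPoly.const 2).mul (g_cc hU hV)).add (UPoly.const 16)

theorem g_nn : UPoly (fun a => nn (U a).length (V a).length) :=
  ((g_mm hU hV).mul (g_cc hU hV)).add (UPoly.const 1)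

theorem g_rw : UPoly (fun a => rw (U a).length (V a).length) :=
  (((UPoly.const 2).mul (UPoly.length hU)).add ((UPoly.const 2).mul (UPoly.length hV))).add
    (UPoly.const 4)

theorem g_ee : UPoly (fun a => ee (U a).length (V a).length) := (g_rw hU hV).mul (g_ell hU hV)

theorem g_ww : UPoly (fun a => ww (U a).length (V a).length) := (g_ee hU hV).add (g_rw hU hV)

theorem g_ttl : UPoly (fun a => ttl (U a).length (V a).length) :=
  ((g_nn hU hV).add (UPoly.const 2)).mul (g_ww hU hV)

theorem g_hbit {h : α → List Outcome} (hh : Poly h) {k : α → ℕ} (hk : Poly k) :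
    Poly (fun a => hbit (h a) (k a)) :=
  NPC.Poly.decide_eq (NPC.Poly.getD hh hk (NPC.Poly.const none)) (NPC.Poly.const (some true))

end

section

variable {α : Type} [TEnc α] {U V : α → List Unit}

/-- weakening of a polynomial-time function -/
theorem wk {α β γ : Type} [TEnc α] [TEnc β] [TEnc γ] {f : α → γ} (hf : Poly f) :
    Poly (fun x : α × β => f x.1) := NPC.Poly.comp (f := fun x : α × β => x.1) hf
      (NPC.Poly.fst NPC.Poly.id)

theorem g_pbOf (hU : Poly U) (hV : Poly V) {h : α → List Outcome} (hh : Poly h) {r : α → ℕ}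
    (hr : Poly r) {k : α → ℕ} (hk : UPoly k) :
    Poly (fun a => pbOf (U a).length (V a).length (h a) (r a) (k a)) := by
  unfold pbOf
  refine NPC.Poly.map (F := fun (a : α) i => hbit (h a) (r a * ww (U a).length (V a).length + i))
    hk.range ?_
  refine g_hbit (U := fun x : α × ℕ => U x.1) (V := fun x : α × ℕ => V x.1) (wk hU) (wk hV)
    (h := fun x : α × ℕ => h x.1) (wk hh) ?_
  exact NPC.Poly.add (NPC.Poly.mul (wk hr) (wk (g_ww hU hV).toPoly)) (NPC.Poly.snd NPC.Poly.id)

theorem g_sgOf (hU : Poly U) (hV : Poly V) {h : α → List Outcome} (hh : Poly h) {r : α → ℕ}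
    (hr : Poly r) : Poly (fun a => sgOf (U a).length (V a).length (h a) (r a)) := by
  unfold sgOf
  refine NPC.Poly.map (F := fun (a : α) j => (h a).getD (r a * ww (U a).length (V a).length +
    ee (U a).length (V a).length + j) none) (g_rw hU hV).range ?_
  refine NPC.Poly.getD (wk hh) ?_ (NPC.Poly.const none)
  exact NPC.Poly.add (NPC.Poly.add (NPC.Poly.mul (wk hr) (wk (g_ww hU hV).toPoly))
    (wk (g_ee hU hV).toPoly)) (NPC.Poly.snd NPC.Poly.id)

theorem g_chunk (hU : Poly U) (hV : Poly V) {pb : α → List Bool} (hpb : Poly pb) {j : α → ℕ}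
    (hj : Poly j) : Poly (fun a => chunk (U a).length (V a).length (pb a) (j a)) := by
  unfold chunk
  refine NPC.Poly.map (F := fun (a : α) i => (pb a).getD (j a * ell (U a).length (V a).length + i)
    false) (g_ell hU hV).range ?_
  refine NPC.Poly.getD (wk hpb) ?_ (NPC.Poly.const false)
  exact NPC.Poly.add (NPC.Poly.mul (wk hj) (wk (g_ell hU hV).toPoly)) (NPC.Poly.snd NPC.Poly.id)

theorem g_recs (hU : Poly U) (hV : Poly V) {pb : α → List Bool} (hpb : Poly pb)
    {t : α → List Outcome} (ht : Poly t) :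
    Poly (fun a => recs (U a).length (V a).length (pb a) (t a)) := by
  unfold recs
  refine NPC.Poly.map (F := fun (a : α) j => ((chunk (U a).length (V a).length (pb a) j,
    [(t a).getD j none]) : Cst)) (g_rw hU hV).range ?_
  refine NPC.Poly.pair ?_ (NPC.Poly.cons (NPC.Poly.getD (wk ht) (NPC.Poly.snd NPC.Poly.id)
    (NPC.Poly.const none)) (NPC.Poly.const []))
  exact g_chunk (U := fun x : α × ℕ => U x.1) (V := fun x : α × ℕ => V x.1) (wk hU) (wk hV)
    (pb := fun x : α × ℕ => pb x.1) (wk hpb) (NPC.Poly.snd NPC.Poly.id)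

theorem g_csOf (hU : Poly U) (hV : Poly V) {h : α → List Outcome} (hh : Poly h) {r : α → ℕ}
    (hr : UPoly r) : Poly (fun a => csOf (U a).length (V a).length (h a) (r a)) := by
  unfold csOf
  refine NPC.Poly.flatMap (F := fun (a : α) r' => recs (U a).length (V a).length
    (pbOf (U a).length (V a).length (h a) r' (ee (U a).length (V a).length))
    (sgOf (U a).length (V a).length (h a) r')) hr.range ?_
  have hU' : Poly (fun x : α × ℕ => U x.1) := wk hU
  have hV' : Poly (fun x : α × ℕ => V x.1) := wk hV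
  have hh' : Poly (fun x : α × ℕ => h x.1) := wk hh
  have hr' : Poly (fun x : α × ℕ => x.2) := NPC.Poly.snd NPC.Poly.id
  exact g_recs hU' hV' (g_pbOf hU' hV' hh' hr' (g_ee hU' hV')) (g_sgOf hU' hV' hh' hr')

theorem list_unit_replicate (l : List Unit) (k : ℕ) (h : l.length = k) :
    List.replicate k () = l := by
  rw [← h]
  exact TPC.list_unit l

theorem g_dimOf (hU : Poly U) (hV : Poly V) :
    Poly (fun a => dimOf (U a).length (V a).length) := by
  refine (NPC.Poly.pair (NPC.Poly.tail hU) hV).congr fun a => ?_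
  unfold dimOf
  rw [list_unit_replicate (U a).tail _ (by simp), list_unit_replicate (V a) _ rfl]

theorem g_minorProg (hU : Poly U) (hV : Poly V) {u : α → List Bool} (hu : Poly u) :
    Poly (fun a => minorProg (U a).length (V a).length ((u a).map some) 0) := by
  have h1 : Poly (fun a => ((((U a, V a), (u a).map some) : HistIn), (0 : ℕ))) :=
    NPC.Poly.pair (NPC.Poly.pair (NPC.Poly.pair hU hV) (poly_mapSome hu)) (NPC.Poly.const 0)
  have h2 := NPC.Poly.comp (g := fun p : HistIn × ℕ =>
    minorProg p.1.1.1.length p.1.1.2.length p.1.2 p.2)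
    (f := fun a => ((((U a, V a), (u a).map some) : HistIn), (0 : ℕ))) h_PM h1
  exact h2

theorem poly_bits' {β γ : Type} [TEnc β] [TEnc γ] {g : β → γ} (hg : Poly g) :
    Poly (fun a => bits (g a)) := TPC.poly_bits hg

/-- **The control is computed in polynomial time.** -/
theorem poly_alg : Poly (fun p : HistIn => alg p.1.1.length p.1.2.length p.2) := by
  have hU : Poly (fun p : HistIn => p.1.1) := NPC.Poly.fst (NPC.Poly.fst NPC.Poly.id)
  have hV : Poly (fun p : HistIn => p.1.2) := NPC.Poly.snd (NPC.Poly.fst NPC.Poly.id)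
  have hh : Poly (fun p : HistIn => p.2) := NPC.Poly.snd NPC.Poly.id
  have hlen : UPoly (fun p : HistIn => p.2.length) := UPoly.length hh
  have hdiv : UPoly (fun p : HistIn => p.2.length / ww p.1.1.length p.1.2.length) :=
    UPoly.of_le (NPC.Poly.div hlen.toPoly (g_ww hU hV).toPoly) hlen fun _ => Nat.div_le_self _ _
  have hmod : UPoly (fun p : HistIn => p.2.length % ww p.1.1.length p.1.2.length) :=
    UPoly.of_le (NPC.Poly.mod hlen.toPoly (g_ww hU hV).toPoly) hlen fun _ => Nat.mod_le _ _
  have hnil : Poly (fun _ : HistIn => ([] : List Instr)) := NPC.Poly.const _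
  have hq1 : Poly (fun p : HistIn => ((dimOf p.1.1.length p.1.2.length,
      (csOf p.1.1.length p.1.2.length p.2 (p.2.length / ww p.1.1.length p.1.2.length),
        (pbOf p.1.1.length p.1.2.length p.2 (p.2.length / ww p.1.1.length p.1.2.length)
          (p.2.length % ww p.1.1.length p.1.2.length) ++ [false], false))) : Qst)) :=
    NPC.Poly.pair (g_dimOf hU hV) (NPC.Poly.pair (g_csOf hU hV hh hdiv)
      (NPC.Poly.pair (NPC.Poly.append (g_pbOf hU hV hh hdiv.toPoly hmod)
        (NPC.Poly.const [false])) (NPC.Poly.const false)))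
  have hq2 : Poly (fun p : HistIn => ((dimOf p.1.1.length p.1.2.length,
      (csOf p.1.1.length p.1.2.length p.2 (nn p.1.1.length p.1.2.length + 2),
        ([], true))) : Qst)) :=
    NPC.Poly.pair (g_dimOf hU hV) (NPC.Poly.pair
      (g_csOf hU hV hh ((g_nn hU hV).add (UPoly.const 2)))
      (NPC.Poly.pair (NPC.Poly.const []) (NPC.Poly.const true)))
  have hprog : Poly (fun p : HistIn => (minorProg p.1.1.length p.1.2.length
      ((chunk p.1.1.length p.1.2.length (pbOf p.1.1.length p.1.2.length p.2
        (p.2.length / ww p.1.1.length p.1.2.length) (ee p.1.1.length p.1.2.length))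
        (p.2.length % ww p.1.1.length p.1.2.length - ee p.1.1.length p.1.2.length)).map some) 0,
      Test.sign [11])) := by
    refine NPC.Poly.pair (g_minorProg hU hV ?_) (TPC.poly_sign (NPC.Poly.const [11]))
    exact g_chunk hU hV (g_pbOf hU hV hh hdiv.toPoly (g_ee hU hV))
      (NPC.Poly.sub hmod.toPoly (g_ee hU hV).toPoly)
  have hans : Poly (fun p : HistIn => (([] : List Instr),
      Test.answer (decide ((p.2.reverse.head?).getD none = some true)))) := by
    refine NPC.Poly.pair hnil (TPC.poly_answer ?_)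
    exact NPC.Poly.decide_eq (NPC.Poly.optGetD (NPC.Poly.head? (NPC.Poly.reverse hh))
      (NPC.Poly.const none)) (NPC.Poly.const (some true))
  unfold alg
  refine NPC.Poly.ite (NPC.Poly.decide_lt hlen.toPoly (g_ttl hU hV).toPoly) ?_
    (NPC.Poly.ite (NPC.Poly.decide_eq hlen.toPoly (g_ttl hU hV).toPoly)
      (NPC.Poly.pair hnil (TPC.poly_ask (poly_bits' hq2))) hans)
  exact NPC.Poly.ite (NPC.Poly.decide_lt hmod.toPoly (g_ee hU hV).toPoly)
    (NPC.Poly.pair hnil (TPC.poly_ask (poly_bits' hq1))) hprog

theorem control_alg : PolyControl alg := t_COMP _ _ _ poly_alg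

end

end Run7.h625.PHL
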