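import Mathlib

set_option autoImplicit false

/-!
# Isolation of the elements of a set by linear hash functions (Sipser's coding lemma)
-/

namespace Run7.h625.PHL

/-- The inner product modulo 2 of two bit strings (up to the smaller length). -/
def ip (r x : List Bool) : Bool := (List.zipWith (fun a b => a && b) r x).foldr xor false

/-- The value of the hash function with rows `A`. -/
def hashOf (A : List (List Bool)) (x : List Bool) : List Bool := A.map fun r => ip r x

/-- Two bit strings differ at a common position. -/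
def Differ (x y : List Bool) : Prop := ∃ i, i < x.length ∧ i < y.length ∧ x.getD i false ≠ y.getD i false

@[simp] lemma length_hashOf (A : List (List Bool)) (x : List Bool) :
    (hashOf A x).length = A.length := by simp [hashOf]

lemma ip_nil (x : List Bool) : ip [] x = false := by simp [ip]
lemma ip_nil' (r : List Bool) : ip r [] = false := by simp [ip]
lemma ip_cons (a b : Bool) (r x : List Bool) : ip (a :: r) (b :: x) = xor (a && b) (ip r x) := by
  simp [ip]

/-- flipping a bit of the row -/
def flipAt (i : ℕ) (r : List Bool) : List Bool := r.modify i (fun b => !b)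

lemma ip_flip : ∀ (r x : List Bool) (i : ℕ), i < r.length → i < x.length →
    ip (flipAt i r) x = xor (x.getD i false) (ip r x)
  | [], _, _, h, _ => by simp at h
  | _, [], _, _, h => by simp at h
  | a :: r, b :: x, 0, _, _ => by
    simp only [flipAt, List.modify_zero_cons, ip_cons, List.getD_cons_zero]
    cases a <;> cases b <;> simp
  | a :: r, b :: x, i + 1, h1, h2 => by
    have := ip_flip r x i (by simpa using h1) (by simpa using h2)
    simp only [flipAt, List.modify_succ_cons, ip_cons, List.getD_cons_succ] at this ⊢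
    rw [this]
    cases a <;> cases b <;> simp

lemma ofFn_flip {N : ℕ} (f : Fin N → Bool) (i : ℕ) (hi : i < N) :
    List.ofFn (Function.update f ⟨i, hi⟩ (!(f ⟨i, hi⟩))) = flipAt i (List.ofFn f) := by
  apply List.ext_getElem
  · simp [flipAt]
  · intro j h1 h2
    simp only [flipAt, List.getElem_ofFn, List.getElem_modify]
    by_cases h : i = j
    · subst h
      simp
    · rw [if_neg h, Function.update_of_ne]
      intro h'
      exact h (by simpa using (congrArg Fin.val h').symm)

/-- Exactly half of the rows of length `N` do not distinguish two given strings. -/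
lemma card_rows {N : ℕ} {x y : List Bool} (hx : x.length ≤ N) (h : Differ x y) :
    2 * (Finset.univ.filter fun f : Fin N → Bool =>
      ip (List.ofFn f) x = ip (List.ofFn f) y).card = 2 ^ N := by
  classical
  obtain ⟨i, h1, h2, h3⟩ := h
  have hi : i < N := by omega
  set S := Finset.univ.filter fun f : Fin N → Bool => ip (List.ofFn f) x = ip (List.ofFn f) y
    with hS
  let e : (Fin N → Bool) → (Fin N → Bool) := fun f => Function.update f ⟨i, hi⟩ (!(f ⟨i, hi⟩))
  have he : ∀ f, e (e f) = f := by
    intro f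
    simp [e]
  have hinj : Function.Injective e := fun f g hfg => by rw [← he f, hfg, he g]
  have hiff : ∀ f, e f ∈ S ↔ f ∉ S := by
    intro f
    simp only [hS, Finset.mem_filter, Finset.mem_univ, true_and, e]
    rw [ofFn_flip, ip_flip _ _ _ (by simpa using hi) h1, ip_flip _ _ _ (by simpa using hi) h2]
    generalize x.getD i false = a at *
    generalize y.getD i false = b at *
    generalize ip (List.ofFn f) x = c
    generalize ip (List.ofFn f) y = d
    revert a b c d
    decide
  have hc : Sᶜ.card = S.card := by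
    have : Sᶜ = S.map ⟨e, hinj⟩ := by
      ext f
      simp only [Finset.mem_compl, Finset.mem_map, Function.Embedding.coeFn_mk]
      constructor
      · intro hf
        exact ⟨e f, (hiff f).2 hf, he f⟩
      · rintro ⟨g, hg, rfl⟩
        intro h'
        exact ((hiff g).1 h') hg
    rw [this, Finset.card_map]
  have := Finset.card_add_card_compl S
  rw [hc] at this
  simp only [Fintype.card_fun, Fintype.card_bool, Fintype.card_fin] at this
  omega

/-- the matrix as a list of rows -/
def rows {k N : ℕ} (A : Fin k → Fin N → Bool) : List (List Bool) :=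
  List.ofFn fun j => List.ofFn (A j)

lemma hash_rows {k N : ℕ} (A : Fin k → Fin N → Bool) (x y : List Bool) :
    hashOf (rows A) x = hashOf (rows A) y ↔ ∀ j, ip (List.ofFn (A j)) x = ip (List.ofFn (A j)) y := by
  unfold hashOf rows
  rw [List.map_ofFn, List.map_ofFn, List.ofFn_inj, funext_iff]
  rfl

/-- Few matrices with `k` rows do not distinguish two given strings. -/
lemma card_mats {k N : ℕ} {x y : List Bool} (hx : x.length ≤ N) (h : Differ x y) :
    2 ^ k * (Finset.univ.filter fun A : Fin k → Fin N → Bool =>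
      hashOf (rows A) x = hashOf (rows A) y).card = 2 ^ (N * k) := by
  classical
  have h1 : (Finset.univ.filter fun A : Fin k → Fin N → Bool =>
      hashOf (rows A) x = hashOf (rows A) y) = Fintype.piFinset fun _ =>
        (Finset.univ.filter fun f : Fin N → Bool => ip (List.ofFn f) x = ip (List.ofFn f) y) := by
    ext A
    simp only [Finset.mem_filter, Finset.mem_univ, true_and, Fintype.mem_piFinset, hash_rows]
  rw [h1, Fintype.card_piFinset]
  simp only [Finset.prod_const, Finset.card_univ, Fintype.card_fin]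
  rw [← mul_pow, card_rows hx h, pow_mul]

open Classical in
/-- The elements of `R` which share their hash value with another element of `Y`. -/
noncomputable def coll {k N : ℕ} (A : Fin k → Fin N → Bool) (Y R : Finset (List Bool)) :
    Finset (List Bool) :=
  R.filter fun x => ∃ y ∈ Y, y ≠ x ∧ hashOf (rows A) x = hashOf (rows A) y

open Classical in
lemma exists_good {k N : ℕ} (Y R : Finset (List Bool)) (hR : R ⊆ Y)
    (hN : ∀ x ∈ Y, x.length ≤ N) (hd : ∀ x ∈ Y, ∀ y ∈ Y, x ≠ y → Differ x y)
    (hk : 2 * Y.card ≤ 2 ^ k) : ∃ A : Fin k → Fin N → Bool, 2 * (coll A Y R).card ≤ R.card := by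
  by_contra hcon
  push Not at hcon
  have h1 : ∀ A : Fin k → Fin N → Bool, (coll A Y R).card ≤
      ∑ x ∈ R, ∑ y ∈ Y, (if y ≠ x ∧ hashOf (rows A) x = hashOf (rows A) y then 1 else 0) := by
    intro A
    unfold coll
    rw [Finset.card_filter]
    apply Finset.sum_le_sum
    intro x _
    split_ifs with h
    · obtain ⟨y, hy, h1, h2⟩ := h
      rw [← Finset.card_filter]
      exact Finset.card_pos.2 ⟨y, Finset.mem_filter.2 ⟨hy, h1, h2⟩⟩
    · exact Nat.zero_le _
  have h2 : ∑ A : Fin k → Fin N → Bool, (coll A Y R).card ≤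
      ∑ x ∈ R, ∑ y ∈ Y, ∑ A : Fin k → Fin N → Bool,
        (if y ≠ x ∧ hashOf (rows A) x = hashOf (rows A) y then 1 else 0) := by
    refine (Finset.sum_le_sum fun A _ => h1 A).trans (le_of_eq ?_)
    rw [Finset.sum_comm]
    apply Finset.sum_congr rfl
    intro x _
    rw [Finset.sum_comm]
  have h3 : ∀ x ∈ R, ∀ y ∈ Y, 2 ^ k * ∑ A : Fin k → Fin N → Bool,
      (if y ≠ x ∧ hashOf (rows A) x = hashOf (rows A) y then 1 else 0) ≤ 2 ^ (N * k) := by
    intro x hx y hy
    by_cases hxy : y = x
    · simp [hxy]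
    · rw [← card_mats (k := k) (hN x (hR hx)) (hd x (hR hx) y hy (Ne.symm hxy)),
        Finset.card_filter]
      apply Nat.mul_le_mul_left
      apply Finset.sum_le_sum
      intro A _
      by_cases h : hashOf (rows A) x = hashOf (rows A) y <;> simp [h, hxy]
  have h4 : 2 ^ k * ∑ A : Fin k → Fin N → Bool, (coll A Y R).card ≤
      R.card * (Y.card * 2 ^ (N * k)) := by
    refine (Nat.mul_le_mul_left _ h2).trans ?_
    rw [Finset.mul_sum, ← smul_eq_mul (a := R.card), ← Finset.sum_const]
    apply Finset.sum_le_sum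
    intro x hx
    rw [Finset.mul_sum, ← smul_eq_mul (a := Y.card), ← Finset.sum_const]
    exact Finset.sum_le_sum fun y hy => h3 x hx y hy
  have hcard : (Finset.univ : Finset (Fin k → Fin N → Bool)).card = 2 ^ (N * k) := by
    rw [Finset.card_univ, Fintype.card_fun, Fintype.card_fun]
    simp [pow_mul]
  have h5 : R.card * 2 ^ (N * k) < 2 * ∑ A : Fin k → Fin N → Bool, (coll A Y R).card := by
    rw [Finset.mul_sum, ← hcard, mul_comm R.card, ← smul_eq_mul, ← Finset.sum_const]
    apply Finset.sum_lt_sum_of_nonempty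
    · rw [← Finset.card_pos, hcard]
      positivity
    · intro A _
      exact hcon A
  have h6 : 2 ^ k * (R.card * 2 ^ (N * k)) < 2 ^ k * (R.card * 2 ^ (N * k)) := by
    calc 2 ^ k * (R.card * 2 ^ (N * k)) <
        2 ^ k * (2 * ∑ A : Fin k → Fin N → Bool, (coll A Y R).card) :=
          Nat.mul_lt_mul_of_pos_left h5 (by positivity)
      _ = 2 * (2 ^ k * ∑ A : Fin k → Fin N → Bool, (coll A Y R).card) := by ring
      _ ≤ 2 * (R.card * (Y.card * 2 ^ (N * k))) := Nat.mul_le_mul_left _ h4
      _ = (2 * Y.card) * (R.card * 2 ^ (N * k)) := by ring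
      _ ≤ 2 ^ k * (R.card * 2 ^ (N * k)) := Nat.mul_le_mul_right _ hk
  exact lt_irrefl _ h6

/-- `A` isolates `x` in `Y`. -/
def Isol (A : List (List Bool)) (Y : Set (List Bool)) (x : List Bool) : Prop :=
  ∀ y ∈ Y, hashOf A y = hashOf A x → y = x

open Classical in
lemma exists_family {k N : ℕ} (Y : Finset (List Bool))
    (hN : ∀ x ∈ Y, x.length ≤ N) (hd : ∀ x ∈ Y, ∀ y ∈ Y, x ≠ y → Differ x y)
    (hk : 2 * Y.card ≤ 2 ^ k) (j : ℕ) : ∃ As : List (Fin k → Fin N → Bool), As.length = j ∧
      2 ^ j * (Y.filter fun x => ∀ A ∈ As, ¬ Isol (rows A) (Y : Set (List Bool)) x).card ≤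
        Y.card := by
  induction j with
  | zero =>
    refine ⟨[], rfl, ?_⟩
    simp
  | succ j ih =>
    obtain ⟨As, h1, h2⟩ := ih
    obtain ⟨A, hA⟩ := exists_good (k := k) (N := N) Y
      (Y.filter fun x => ∀ A ∈ As, ¬ Isol (rows A) (Y : Set (List Bool)) x)
      (Finset.filter_subset _ _) hN hd hk
    refine ⟨A :: As, by simp [h1], ?_⟩
    have hsub : (Y.filter fun x => ∀ A' ∈ A :: As, ¬ Isol (rows A') (Y : Set (List Bool)) x) ⊆
        coll A Y (Y.filter fun x => ∀ A ∈ As, ¬ Isol (rows A) (Y : Set (List Bool)) x) := by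
      intro x hx
      rw [Finset.mem_filter] at hx
      obtain ⟨hxY, hx⟩ := hx
      unfold coll
      rw [Finset.mem_filter, Finset.mem_filter]
      refine ⟨⟨hxY, fun A' hA' => hx A' (List.mem_cons_of_mem _ hA')⟩, ?_⟩
      have h3 := hx A List.mem_cons_self
      unfold Isol at h3
      push Not at h3
      obtain ⟨y, hy, h4, h5⟩ := h3
      exact ⟨y, by simpa using hy, h5, h4.symm⟩
    calc 2 ^ (j + 1) * (Y.filter fun x => ∀ A' ∈ A :: As,
          ¬ Isol (rows A') (Y : Set (List Bool)) x).card
        ≤ 2 ^ (j + 1) * (coll A Y (Y.filter fun x => ∀ A ∈ As,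
          ¬ Isol (rows A) (Y : Set (List Bool)) x)).card :=
          Nat.mul_le_mul_left _ (Finset.card_le_card hsub)
      _ = 2 ^ j * (2 * (coll A Y (Y.filter fun x => ∀ A ∈ As,
          ¬ Isol (rows A) (Y : Set (List Bool)) x)).card) := by ring
      _ ≤ 2 ^ j * (Y.filter fun x => ∀ A ∈ As, ¬ Isol (rows A) (Y : Set (List Bool)) x).card :=
          Nat.mul_le_mul_left _ hA
      _ ≤ Y.card := h2

/-- `Y` is isolated by at most `k` hash functions with at most `k` rows of length at most `N`. -/
def Iso (N k : ℕ) (Y : Set (List Bool)) : Prop :=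
  ∃ As : List (List (List Bool)), As.length ≤ k ∧
    (∀ A ∈ As, A.length ≤ k ∧ ∀ r ∈ A, r.length ≤ N) ∧ ∀ x ∈ Y, ∃ A ∈ As, Isol A Y x

lemma Iso.mono_set {N k : ℕ} {Y Y' : Set (List Bool)} (h : Iso N k Y) (hY : Y' ⊆ Y) :
    Iso N k Y' := by
  obtain ⟨As, h1, h2, h3⟩ := h
  refine ⟨As, h1, h2, fun x hx => ?_⟩
  obtain ⟨A, hA, h4⟩ := h3 x (hY hx)
  exact ⟨A, hA, fun y hy => h4 y (hY hy)⟩

lemma Iso.mono {N k k' : ℕ} {Y : Set (List Bool)} (h : Iso N k Y) (hk : k ≤ k') : Iso N k' Y := by
  obtain ⟨As, h1, h2, h3⟩ := h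
  exact ⟨As, h1.trans hk, fun A hA => ⟨(h2 A hA).1.trans hk, (h2 A hA).2⟩, h3⟩

lemma iso_zero {N : ℕ} {Y : Set (List Bool)} (h : Iso N 0 Y) : Y = ∅ := by
  obtain ⟨As, h1, -, h3⟩ := h
  have : As = [] := List.length_eq_zero_iff.1 (Nat.le_zero.1 h1)
  subst this
  rw [Set.eq_empty_iff_forall_notMem]
  intro x hx
  obtain ⟨A, hA, _⟩ := h3 x hx
  simp at hA

lemma iso_empty (N k : ℕ) : Iso N k (∅ : Set (List Bool)) :=
  ⟨[], by simp, by simp, by simp⟩

/-- **Small sets are isolated.** -/
theorem iso_of_card {N k : ℕ} {Y : Set (List Bool)} (hf : Y.Finite)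
    (hN : ∀ x ∈ Y, x.length ≤ N) (hd : ∀ x ∈ Y, ∀ y ∈ Y, x ≠ y → Differ x y)
    (hk : 2 * Y.ncard ≤ 2 ^ k) : Iso N k Y := by
  classical
  obtain ⟨As, h1, h2⟩ := exists_family (k := k) (N := N) hf.toFinset
    (fun x hx => hN x (by simpa using hx))
    (fun x hx y hy => hd x (by simpa using hx) y (by simpa using hy))
    (by rwa [← Set.ncard_eq_toFinset_card _ hf]) k
  refine ⟨As.map rows, by simp [h1], ?_, ?_⟩
  · intro A hA
    rw [List.mem_map] at hA
    obtain ⟨B, _, rfl⟩ := hA
    refine ⟨by simp [rows], ?_⟩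
    intro r hr
    unfold rows at hr
    rw [List.mem_ofFn] at hr
    obtain ⟨j, rfl⟩ := hr
    simp
  · intro x hx
    by_contra hcon
    push Not at hcon
    have hcard : hf.toFinset.card = Y.ncard := (Set.ncard_eq_toFinset_card _ hf).symm
    have h3 : 0 < (hf.toFinset.filter fun x => ∀ A ∈ As,
        ¬ Isol (rows A) (hf.toFinset : Set (List Bool)) x).card := by
      apply Finset.card_pos.2
      refine ⟨x, Finset.mem_filter.2 ⟨by simpa using hx, fun A hA => ?_⟩⟩
      have := hcon (rows A) (List.mem_map_of_mem hA)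
      simpa using this
    have h4 : 2 ^ k ≤ Y.ncard := by
      rw [← hcard]
      calc 2 ^ k = 2 ^ k * 1 := (mul_one _).symm
        _ ≤ _ := Nat.mul_le_mul_left _ h3
        _ ≤ _ := h2
    have h5 : 0 < 2 ^ k := by positivity
    omega

/-- **Isolated sets are small.** -/
theorem card_of_iso {N k : ℕ} {Y : Set (List Bool)} (hf : Y.Finite) (h : Iso N k Y) :
    Y.ncard ≤ k * 2 ^ k := by
  classical
  obtain ⟨As, h1, h2, h3⟩ := h
  have hsub : hf.toFinset ⊆ As.toFinset.biUnion fun A => hf.toFinset.filter fun x => Isol A Y x := by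
    intro x hx
    obtain ⟨A, hA, h4⟩ := h3 x (by simpa using hx)
    exact Finset.mem_biUnion.2 ⟨A, by simpa using hA, Finset.mem_filter.2 ⟨hx, h4⟩⟩
  have h4 : ∀ A ∈ As.toFinset, (hf.toFinset.filter fun x => Isol A Y x).card ≤ 2 ^ k := by
    intro A hA
    have hA' : A ∈ As := by simpa using hA
    have h5 : (hf.toFinset.filter fun x => Isol A Y x).card ≤
        (Finset.univ : Finset (List.Vector Bool A.length)).card := by
      apply Finset.card_le_card_of_injOn (fun x => ⟨hashOf A x, length_hashOf A x⟩)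
      · intro x _
        exact Finset.mem_coe.2 (Finset.mem_univ _)
      · intro x hx y hy hxy
        rw [Finset.mem_coe, Finset.mem_filter, Set.Finite.mem_toFinset] at hx hy
        have : hashOf A x = hashOf A y := congrArg Subtype.val hxy
        exact hy.2 x hx.1 this
    refine h5.trans ?_
    rw [Finset.card_univ, card_vector, Fintype.card_bool]
    exact Nat.pow_le_pow_right (by norm_num) (h2 A hA').1
  rw [Set.ncard_eq_toFinset_card _ hf]
  calc hf.toFinset.card ≤ (As.toFinset.biUnion fun A =>
        hf.toFinset.filter fun x => Isol A Y x).card := Finset.card_le_card hsub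
    _ ≤ ∑ A ∈ As.toFinset, (hf.toFinset.filter fun x => Isol A Y x).card := Finset.card_biUnion_le
    _ ≤ ∑ _A ∈ As.toFinset, 2 ^ k := Finset.sum_le_sum h4
    _ = As.toFinset.card * 2 ^ k := by simp
    _ ≤ k * 2 ^ k := Nat.mul_le_mul_right _ ((List.toFinset_card_le _).trans h1)

end Run7.h625.PHL
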