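import Mathlib

set_option autoImplicit false

/-!
# Good plans

If a potential never stays the same on two different answers, a short list of queries makes it
smaller or settles the question.
-/

namespace Run7.h625.PHL

section Plan

variable {α Q R : Type} (χ : α → Q → R)

/-- The elements of `Z` with answers `t` to the queries `D`. -/
def cut (Z : Set α) (D : List Q) (t : List R) : Set α := {a | a ∈ Z ∧ D.map (χ a) = t}

lemma cut_subset (Z : Set α) (D : List Q) (t : List R) : cut χ Z D t ⊆ Z := fun _ h => h.1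

lemma cut_cons (Z : Set α) (q : Q) (D : List Q) (r : R) (t : List R) :
    cut χ Z (q :: D) (r :: t) = cut χ Z D t ∩ {a | χ a q = r} := by
  ext a
  simp only [cut, List.map_cons, List.cons.injEq, Set.mem_ofPred_eq, Set.mem_inter_iff]
  tauto

lemma cut_sub_of_getElem (Z : Set α) (D : List Q) (t : List R) (i : ℕ) (h1 : i < D.length)
    (h2 : i < t.length) : cut χ Z D t ⊆ Z ∩ {a | χ a D[i] = t[i]} := by
  rintro a ⟨h3, h4⟩
  refine ⟨h3, ?_⟩
  subst h4
  simp

lemma exists_ne_getElem : ∀ {t t' : List R}, t.length = t'.length → t ≠ t' →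
    ∃ (i : ℕ) (h1 : i < t.length) (h2 : i < t'.length), t[i] ≠ t'[i]
  | [], [], _, h => absurd rfl h
  | [], _ :: _, h, _ => by simp at h
  | _ :: _, [], h, _ => by simp at h
  | a :: t, b :: t', h, h' => by
    by_cases hab : a = b
    · subst hab
      obtain ⟨i, h1, h2, h3⟩ := exists_ne_getElem (t := t) (t' := t') (by simpa using h)
        (fun h4 => h' (by rw [h4]))
      exact ⟨i + 1, by simpa using h1, by simpa using h2, by simpa using h3⟩
    · exact ⟨0, by simp, by simp, by simpa using hab⟩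

variable (F : α → Prop) (Ψ : Set α → ℕ)

/-- The list `D` of queries is a good plan for `Z`: whatever the answers, the potential drops or
all inputs which remain have the same answer. -/
def GoodPlan (Z : Set α) (D : List Q) : Prop :=
  ∀ t : List R, t.length = D.length → Ψ (cut χ Z D t) < Ψ Z ∨
    ¬ ((∃ a ∈ cut χ Z D t, F a) ∧ ∃ a ∈ cut χ Z D t, ¬ F a)

variable {χ F Ψ}

/-- **Existence of good plans.** -/
theorem exists_goodPlan (s : ℕ)
    (hcert : ∀ σ : Q → R, (∀ D : List Q, D.length ≤ s → ∃ a, ∀ q ∈ D, χ a q = σ q) →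
      ∃ D : List Q, D.length ≤ s ∧ ∃ ans : Prop, ∀ a, (∀ q ∈ D, χ a q = σ q) → (F a ↔ ans))
    (hmono : ∀ Z Z' : Set α, Z ⊆ Z' → Ψ Z ≤ Ψ Z') (hempty : Ψ ∅ = 0)
    (hpos : ∀ Z : Set α, Z.Nonempty → 0 < Ψ Z)
    (hdrop : ∀ (Z : Set α) (q : Q) (r r' : R), Z.Nonempty → r ≠ r' →
      Ψ (Z ∩ {a | χ a q = r}) = Ψ Z → Ψ (Z ∩ {a | χ a q = r'}) = Ψ Z → False)
    (Z : Set α) : ∃ D : List Q, D.length ≤ s + 1 ∧ GoodPlan χ F Ψ Z D := by
  classical
  rcases Z.eq_empty_or_nonempty with rfl | hZ
  · refine ⟨[], by simp, fun t _ => Or.inr ?_⟩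
    rintro ⟨⟨a, ha, _⟩, _⟩
    exact ha.1
  have hsub : ∀ Y : Set α, Y ⊆ Z → ∀ (X : Set α), Ψ Y = Ψ Z → Y ⊆ X → X ⊆ Z → Ψ X = Ψ Z := by
    intro Y _ X h1 h2 h3
    exact le_antisymm (hmono _ _ h3) (h1 ▸ hmono _ _ h2)
  -- two different vectors of answers cannot both keep the potential
  have hdiff : ∀ (D : List Q) (t t' : List R), t.length = D.length → t'.length = D.length →
      t ≠ t' → Ψ (cut χ Z D t) = Ψ Z → Ψ (cut χ Z D t') = Ψ Z → False := by
    intro D t t' h1 h2 h3 h4 h5
    obtain ⟨i, hi1, hi2, hne⟩ := exists_ne_getElem (h1.trans h2.symm) h3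
    have hiD : i < D.length := h1 ▸ hi1
    exact hdrop Z D[i] t[i] t'[i] hZ hne
      (hsub _ (cut_subset χ Z D t) _ h4 (cut_sub_of_getElem χ Z D t i hiD hi1)
        Set.inter_subset_left)
      (hsub _ (cut_subset χ Z D t') _ h5 (cut_sub_of_getElem χ Z D t' i hiD hi2)
        Set.inter_subset_left)
  by_cases hA : ∃ (D : List Q) (t : List R) (q : Q), D.length ≤ s ∧ t.length = D.length ∧
      Ψ (cut χ Z D t) = Ψ Z ∧ ∀ r, Ψ (cut χ Z D t ∩ {a | χ a q = r}) < Ψ Z
  · obtain ⟨D, t, q, h1, h2, h3, h4⟩ := hA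
    refine ⟨q :: D, by simp; omega, fun t' ht' => Or.inl ?_⟩
    rcases t' with _ | ⟨r, t'⟩
    · simp at ht'
    · simp only [List.length_cons, Nat.add_right_cancel_iff] at ht'
      rw [cut_cons]
      by_cases h5 : t' = t
      · rw [h5]
        exact h4 r
      · refine lt_of_le_of_ne (hmono _ _ (Set.inter_subset_left.trans (cut_subset χ _ _ _))) ?_
        intro h6
        have h7 : Ψ (cut χ Z D t') = Ψ Z :=
          hsub _ (Set.inter_subset_left.trans (cut_subset χ _ _ _)) _ h6 Set.inter_subset_left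
            (cut_subset χ _ _ _)
        exact hdiff D t' t ht' h2 h5 h7 h3
  · push Not at hA
    have hB : ∀ (D : List Q) (t : List R) (q : Q), D.length ≤ s → t.length = D.length →
        Ψ (cut χ Z D t) = Ψ Z → ∃ r, Ψ (cut χ Z D t ∩ {a | χ a q = r}) = Ψ Z := by
      intro D t q h1 h2 h3
      obtain ⟨r, hr⟩ := hA D t q h1 h2 h3
      exact ⟨r, le_antisymm (hmono _ _ (Set.inter_subset_left.trans (cut_subset χ _ _ _))) hr⟩
    have hσ : ∀ q, ∃ r, Ψ (Z ∩ {a | χ a q = r}) = Ψ Z := by
      intro q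
      obtain ⟨r, hr⟩ := hB [] [] q (by simp) rfl (by
        have : cut χ Z [] [] = Z := by
          ext a
          simp [cut]
        rw [this])
      refine ⟨r, ?_⟩
      have : cut χ Z [] [] = Z := by
        ext a
        simp [cut]
      rwa [this] at hr
    choose σ hσ using hσ
    have hkeep : ∀ D : List Q, D.length ≤ s → Ψ (cut χ Z D (D.map σ)) = Ψ Z := by
      intro D
      induction D with
      | nil =>
        intro _
        have : cut χ Z [] (([] : List Q).map σ) = Z := by
          ext a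
          simp [cut]
        rw [this]
      | cons q D ih =>
        intro hD
        simp only [List.length_cons] at hD
        have h1 := ih (by omega)
        obtain ⟨r, hr⟩ := hB D (D.map σ) q (by omega) (by simp) h1
        have h2 : r = σ q := by
          by_contra hne
          refine hdrop Z q r (σ q) hZ hne ?_ (hσ q)
          refine hsub _ (Set.inter_subset_left.trans (cut_subset χ _ _ _)) _ hr ?_
            Set.inter_subset_left
          exact Set.inter_subset_inter_left _ (cut_subset χ _ _ _)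
        rw [List.map_cons, cut_cons, ← h2]
        exact hr
    obtain ⟨D, hD, ans, hans⟩ := hcert σ (by
      intro D hD
      have h1 := hkeep D hD
      have h2 : (cut χ Z D (D.map σ)).Nonempty := by
        by_contra hcon
        rw [Set.not_nonempty_iff_eq_empty] at hcon
        rw [hcon, hempty] at h1
        have := hpos Z hZ
        omega
      obtain ⟨a, -, ha⟩ := h2
      exact ⟨a, fun q hq => (List.map_inj_left.1 ha) q hq⟩)
    refine ⟨D, by omega, fun t ht => ?_⟩
    by_cases h1 : t = D.map σ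
    · right
      rintro ⟨⟨a, ha, hFa⟩, ⟨b, hb, hFb⟩⟩
      rw [h1] at ha hb
      have h2 := hans a (fun q hq => (List.map_inj_left.1 ha.2) q hq)
      have h3 := hans b (fun q hq => (List.map_inj_left.1 hb.2) q hq)
      exact hFb (h3.2 (h2.1 hFa))
    · left
      refine lt_of_le_of_ne (hmono _ _ (cut_subset χ _ _ _)) ?_
      intro h2
      exact hdiff D t (D.map σ) ht (by simp) h1 h2 (hkeep D hD)

lemma cut_append (Z : Set α) (D D' : List Q) (t t' : List R) (h : t.length = D.length) :
    cut χ Z (D ++ D') (t ++ t') ⊆ cut χ Z D t := by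
  rintro a ⟨h1, h2⟩
  refine ⟨h1, ?_⟩
  rw [List.map_append] at h2
  exact (List.append_inj h2 (by simp [h])).1

/-- Longer plans are good. -/
lemma GoodPlan.append (hmono : ∀ Z Z' : Set α, Z ⊆ Z' → Ψ Z ≤ Ψ Z') {Z : Set α} {D : List Q}
    (h : GoodPlan χ F Ψ Z D) (D' : List Q) : GoodPlan χ F Ψ Z (D ++ D') := by
  intro t ht
  have e : t = t.take D.length ++ t.drop D.length := (List.take_append_drop _ _).symm
  have hl : (t.take D.length).length = D.length := by
    rw [List.length_take, ht, List.length_append]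
    omega
  have hs : cut χ Z (D ++ D') t ⊆ cut χ Z D (t.take D.length) := by
    conv_lhs => rw [e]
    exact cut_append Z D D' _ _ hl
  rcases h (t.take D.length) hl with h1 | h1
  · left
    exact lt_of_le_of_lt (hmono _ _ hs) h1
  · right
    rintro ⟨⟨a, ha, hFa⟩, ⟨b, hb, hFb⟩⟩
    exact h1 ⟨⟨a, hs ha, hFa⟩, ⟨b, hs hb, hFb⟩⟩

end Plan

end Run7.h625.PHL
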