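import Pool.Agent.Run7.h625.PHL.AlgDef

set_option autoImplicit false

/-!
# The run of the algorithm
-/

namespace Run7.h625.PHL

open Pool.Agent Pool.Agent.NPC Pool.Agent.NPC.ER Pool.Agent.NPC.H612 Pool.Agent.H558R2
open Pool.Agent.H622R3.SM

theorem ww_pos (m n : ℕ) : 0 < ww m n := by
  have := rw_pos m n
  unfold ww
  omega

theorem div_ww {m n r i p : ℕ} (hl : p = r * ww m n + i) (hi : i < ww m n) :
    p / ww m n = r ∧ p % ww m n = i := by
  subst hl
  constructor
  · rw [Nat.add_comm, Nat.add_mul_div_right _ _ (ww_pos m n), Nat.div_eq_of_lt hi, zero_add]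
  · rw [Nat.add_comm, Nat.add_mul_mod_self_right, Nat.mod_eq_of_lt hi]

theorem run_main (m n : ℕ) (a : Inp m n) (hm : 1 ≤ m) : ∀ (rem : ℕ) (h : List Outcome) (k : ℕ)
    (ρ : Reg → ℝ) (r i : ℕ), h.length + rem = ttl m n → h.length = r * ww m n + i →
      i < ww m n → rem + 2 ≤ k → Inv m n a h r i → (∀ x ∈ baseReg, ρ x = start a.1 a.2 x) →
      ∃ ans nums steps, run orc (alg m n) k h ρ = some (ans, nums, steps) ∧
        (ans = true ↔ Feas a) ∧ steps ≤ rem * (12 * m ^ 4 + 1) + 2 := by
  intro rem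
  induction rem with
  | zero =>
    intro h k ρ r i hlen hl hi hk hv _
    obtain ⟨k, rfl⟩ : ∃ k', k = k' + 1 + 1 := ⟨k - 2, by omega⟩
    have hlen' : h.length = ttl m n := by omega
    have hri : r = nn m n + 2 ∧ i = 0 := by
      have h1 := div_ww hl hi
      have h2 := div_ww (m := m) (n := n) (r := nn m n + 2) (i := 0) (p := ttl m n)
        (by unfold ttl; ring) (ww_pos m n)
      rw [hlen'] at h1
      exact ⟨h1.1.symm.trans h2.1, h1.2.symm.trans h2.2⟩
    obtain ⟨rfl, rfl⟩ := hri
    obtain ⟨h1, h2, -⟩ := hv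
    have hset : Settled m n (csOf m n h (nn m n + 2)) := by
      rcases h2 with h2 | h2
      · have := psi_pos' ⟨a, h1⟩
        omega
      · exact h2
    have hα1 : alg m n h =
        ([], Test.ask (bits ((dimOf m n, (csOf m n h (nn m n + 2), ([], true))) : Qst))) := by
      unfold alg
      rw [if_neg (by omega), if_pos hlen']
    classical
    have hα2 : alg m n (h ++ [some (decide
        (bits ((dimOf m n, (csOf m n h (nn m n + 2), ([], true))) : Qst) ∈ orc))]) =
        ([], Test.answer (decide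
          (bits ((dimOf m n, (csOf m n h (nn m n + 2), ([], true))) : Qst) ∈ orc))) := by
      unfold alg
      rw [if_neg (by simp; omega), if_neg (by simp; omega)]
      simp
    refine ⟨decide (bits ((dimOf m n, (csOf m n h (nn m n + 2), ([], true))) : Qst) ∈ orc),
      [], 1 + 0, ?_, ?_, by omega⟩
    · apply TRUN.run_ask _ _ _ _ _ _ hα1 (decide
        (bits ((dimOf m n, (csOf m n h (nn m n + 2), ([], true))) : Qst) ∈ orc)) (by simp)
      exact TRUN.run_answer _ _ _ _ _ _ hα2
    · rw [decide_eq_true_iff, mem_orc_final hm]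
      constructor
      · rintro ⟨a', ha', hf'⟩
        by_contra hf
        exact hset ⟨⟨a', ha', hf'⟩, ⟨a, h1, hf⟩⟩
      · intro hf
        exact ⟨a, h1, hf⟩
  | succ rem ih =>
    intro h k ρ r i hlen hl hi hk hv hρ
    obtain ⟨k, rfl⟩ : ∃ k', k = k' + 1 := ⟨k - 1, by omega⟩
    have hlt : h.length < ttl m n := by omega
    obtain ⟨hdiv, hmod⟩ := div_ww hl hi
    by_cases hcase : i < ee m n
    · -- a question
      have hα : alg m n h = ([], Test.ask (bits ((dimOf m n, (csOf m n h r,
          (pbOf m n h r i ++ [false], false))) : Qst))) := by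
        unfold alg
        rw [if_pos hlt, hdiv, hmod, if_pos hcase]
      classical
      have hv' := inv_ask hm hl hcase hv
      have hww : ee m n + rw m n = ww m n := rfl
      have hrw := rw_pos m n
      obtain ⟨ans, nums, steps, hrun, hans, hst⟩ := ih (h ++ [some (decide
        (bits ((dimOf m n, (csOf m n h r, (pbOf m n h r i ++ [false], false))) : Qst) ∈ orc))])
        k ρ r (i + 1) (by simp; omega) (by simp; omega) (by omega) (by omega) hv' hρ
      refine ⟨ans, nums, 1 + steps, ?_, hans, ?_⟩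
      · exact TRUN.run_ask _ _ _ _ _ _ hα _ (by simp) _ _ _ hrun
      · have : (rem + 1) * (12 * m ^ 4 + 1) = rem * (12 * m ^ 4 + 1) + (12 * m ^ 4 + 1) := by ring
        omega
    · -- the sign of a minor
      push Not at hcase
      obtain ⟨u, hu⟩ : ∃ u, u = chunk m n (pbOf m n h r (ee m n)) (i - ee m n) := ⟨_, rfl⟩
      have hα : alg m n h = (minorProg m n (u.map some) 0, Test.sign [11]) := by
        unfold alg
        rw [if_pos hlt, hdiv, hmod, if_neg (by omega), ← hu]
      obtain ⟨ρ', hex, hbase, h11⟩ := h_MINOR m n (u.map some) 0 a ρ hm hρ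
      have hout : signOut (ρ' [11]) = sgn m n a u := by
        rw [h11]
        rfl
      have hl' := t_LEN m n (u.map some) 0 hm
      by_cases hend : i + 1 < ww m n
      · have hv' := inv_sign hl hcase hend hv
        rw [← hu, ← hout] at hv'
        obtain ⟨ans, nums, steps, hrun, hans, hst⟩ := ih (h ++ [signOut (ρ' [11])]) k ρ' r (i + 1)
          (by simp; omega) (by simp; omega) hend (by omega) hv' hbase
        refine ⟨ans, _, _, TRUN.run_sign _ _ _ _ _ _ _ _ _ hα hex _ _ _ hrun, hans, ?_⟩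
        have : (rem + 1) * (12 * m ^ 4 + 1) = rem * (12 * m ^ 4 + 1) + (12 * m ^ 4 + 1) := by ring
        simp only [List.length_map]
        omega
      · have hend' : i + 1 = ww m n := by omega
        have hv' := inv_end hl hcase hend' hv
        rw [← hu, ← hout] at hv'
        have e1 : (r + 1) * ww m n = r * ww m n + ww m n := by ring
        obtain ⟨ans, nums, steps, hrun, hans, hst⟩ := ih (h ++ [signOut (ρ' [11])]) k ρ' (r + 1) 0
          (by simp; omega) (by simp; omega) (ww_pos m n) (by omega) hv' hbase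
        refine ⟨ans, _, _, TRUN.run_sign _ _ _ _ _ _ _ _ _ hα hex _ _ _ hrun, hans, ?_⟩
        have : (rem + 1) * (12 * m ^ 4 + 1) = rem * (12 * m ^ 4 + 1) + (12 * m ^ 4 + 1) := by ring
        simp only [List.length_map]
        omega

theorem run_alg (m n : ℕ) (a : Inp m n) (k : ℕ) (hm : 1 ≤ m) (hk : ttl m n + 2 ≤ k) :
    ∃ ans nums steps, run orc (alg m n) k [] (start a.1 a.2) = some (ans, nums, steps) ∧
      (ans = true ↔ Feas a) ∧ steps ≤ ttl m n * (12 * m ^ 4 + 1) + 2 :=
  run_main m n a hm (ttl m n) [] k _ 0 0 (by simp) (by simp) (ww_pos m n) hk (inv_zero m n a)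
    (fun _ _ => rfl)

/-- all numbers computed on rational inputs are small -/
theorem nums_alg (O : Set (List Bool)) (m n : ℕ) (A : Matrix (Fin m) (Fin n) ℚ)
    (b : Fin m → ℚ) (k : ℕ) (ans : Bool) (nums : List ℝ) (steps : ℕ) (hm : 1 ≤ m)
    (hrun : run O (alg m n) k [] (start (fun i j => ((A i j : ℚ) : ℝ)) (fun i => ((b i : ℚ) : ℝ))) =
      some (ans, nums, steps)) :
    ∀ v ∈ nums, ∃ q : ℚ, (q : ℝ) = v ∧ bitLength q ≤ 30 * inputLength A b ^ 2 := by
  have key : ∀ (k : ℕ) (h : List Outcome) (ρ : Reg → ℝ) (ans : Bool) (nums : List ℝ) (steps : ℕ),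
      (∀ r ∈ baseReg, ρ r =
        start (fun i j => ((A i j : ℚ) : ℝ)) (fun i => ((b i : ℚ) : ℝ)) r) →
      run O (alg m n) k h ρ = some (ans, nums, steps) →
      ∀ v ∈ nums, ∃ q : ℚ, (q : ℝ) = v ∧ bitLength q ≤ 30 * inputLength A b ^ 2 := by
    intro k
    induction k with
    | zero =>
      intro h ρ ans nums steps _ hr
      simp [run] at hr
    | succ k ih =>
      intro h ρ ans nums steps hρ hr
      by_cases h1 : h.length < ttl m n
      · by_cases h2 : h.length % ww m n < ee m n
        · obtain ⟨h', s', h3⟩ := TNUMS.run_ask O (alg m n) k h ρ _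
            (by unfold alg; rw [if_pos h1, if_pos h2]) ans nums steps hr
          exact ih h' ρ ans nums s' hρ h3
        · obtain ⟨ρ', hex, hb, -⟩ := h_MINOR m n ((chunk m n (pbOf m n h (h.length / ww m n)
            (ee m n)) (h.length % ww m n - ee m n)).map some) 0
            (fun i j => ((A i j : ℚ) : ℝ), fun i => ((b i : ℚ) : ℝ)) ρ hm hρ
          obtain ⟨h', n', s', h3, h4⟩ := TNUMS.run_sign O (alg m n) k h ρ ρ' _ _ [11]
            (by unfold alg; rw [if_pos h1, if_neg h2]) hex ans nums steps hr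
          intro v hv
          rw [h4, List.mem_append] at hv
          rcases hv with hv | hv
          · rw [List.mem_map] at hv
            obtain ⟨I, hI, rfl⟩ := hv
            exact t_SMALL m n _ 0 A b hm I hI
          · exact ih h' ρ' ans n' s' hb h3 v hv
      · by_cases h2 : h.length = ttl m n
        · obtain ⟨h', s', h3⟩ := TNUMS.run_ask O (alg m n) k h ρ _
            (by unfold alg; rw [if_neg h1, if_pos h2]) ans nums steps hr
          exact ih h' ρ ans nums s' hρ h3
        · have h5 := TNUMS.run_answer O (alg m n) k h ρ _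
            (by unfold alg; rw [if_neg h1, if_neg h2]) ans nums steps hr
          intro v hv
          rw [h5] at hv
          simp at hv
  exact key k [] _ ans nums steps (fun r _ => rfl) hrun

/-! ### Polynomial bound -/

section

theorem cc_le (m n x : ℕ) (hm : m ≤ x) (hn : n ≤ x) :
    cc m n ≤ (((x + (x + x) + 1) * x + x + 3) * (x * x + x)) * (4 * (x * (x + (x + x))) + 6) + 2 := by
  unfold cc
  have h1 := TPOL.pexp_le m n x hm hn
  have h2 := TPOL.ell_le m n x hm hn
  gcongr

open Polynomial in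
/-- the polynomial bounding `cc` -/
noncomputable def PX : Polynomial ℕ :=
  (((X + (X + X) + 1) * X + X + 3) * (X * X + X)) * (4 * (X * (X + (X + X))) + 6) + 2

theorem eval_PX (x : ℕ) : PX.eval x =
    (((x + (x + x) + 1) * x + x + 3) * (x * x + x)) * (4 * (x * (x + (x + x))) + 6) + 2 := by
  unfold PX
  simp

theorem ttl_le (m n x : ℕ) (hm : m ≤ x) (hn : n ≤ x) : ttl m n ≤
    ((2 * PX.eval x + 16) * PX.eval x + 1 + 2) *
      ((2 * x + 2 * x + 4) * (x * (x + (x + x))) + (2 * x + 2 * x + 4)) := by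
  unfold ttl ww ee nn mm rw
  have h1 := cc_le m n x hm hn
  rw [← eval_PX] at h1
  have h2 := TPOL.ell_le m n x hm hn
  gcongr

open Polynomial in
/-- the polynomial bounding `ttl` -/
noncomputable def QX : Polynomial ℕ :=
  ((2 * PX + 16) * PX + 1 + 2) * ((2 * X + 2 * X + 4) * (X * (X + (X + X))) + (2 * X + 2 * X + 4))

theorem eval_QX (x : ℕ) : QX.eval x = ((2 * PX.eval x + 16) * PX.eval x + 1 + 2) *
      ((2 * x + 2 * x + 4) * (x * (x + (x + x))) + (2 * x + 2 * x + 4)) := by
  unfold QX
  simp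

theorem pol_alg : ∃ p : Polynomial ℕ, ∀ m n : ℕ, 1 ≤ m → 1 ≤ n →
    ttl m n + 2 ≤ p.eval (m + n) ∧ ttl m n * (12 * m ^ 4 + 1) + 2 ≤ p.eval (m + n) := by
  refine ⟨QX * (12 * Polynomial.X ^ 4 + 1) + 2, ?_⟩
  intro m n _ _
  have h := ttl_le m n (m + n) (by omega) (by omega)
  rw [← eval_QX] at h
  have e : (QX * (12 * Polynomial.X ^ 4 + 1) + 2).eval (m + n) =
      QX.eval (m + n) * (12 * (m + n) ^ 4 + 1) + 2 := by
    simp
  rw [e]
  have h2 : m ^ 4 ≤ (m + n) ^ 4 := Nat.pow_le_pow_left (by omega) 4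
  constructor
  · have : QX.eval (m + n) * 1 ≤ QX.eval (m + n) * (12 * (m + n) ^ 4 + 1) :=
      Nat.mul_le_mul_left _ (by omega)
    omega
  · gcongr

end

/-- **The algorithm is strongly polynomial relative to its oracle.** -/
theorem strong_alg : StronglyPolynomial orc alg := by
  obtain ⟨p, hp⟩ := pol_alg
  refine ⟨p, fun m n hm hn => ⟨fun A b => ?_, fun A b k ans nums steps h => ?_⟩⟩
  · obtain ⟨h1, h2⟩ := hp m n hm hn
    obtain ⟨ans, nums, steps, h3, h4, h5⟩ := run_alg m n (A, b) (p.eval (m + n)) hm h1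
    exact ⟨ans, nums, steps, h3, h4.trans (feas_iff A b), h5.trans h2⟩
  · exact nums_alg orc m n A b k ans nums steps hm h

end Run7.h625.PHL
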