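import Pool.Agent.Run7.h625.PHL.Shatter
import Pool.Agent.Run7.h625.PHL.Plan
import Pool.Agent.H622R3.SM.T_ENC

set_option autoImplicit false

/-!
# Constraints on the signs of minors, tests, parameters, existence of good plans
-/

namespace Run7.h625.PHL

open Pool.Agent Pool.Agent.NPC Pool.Agent.NPC.ER Pool.Agent.NPC.H612 Pool.Agent.H558R2
open Pool.Agent.H622R3.SM

/-! ### Sizes -/

/-- The number of minors in a round. -/
def rw (m n : ℕ) : ℕ := 2 * m + 2 * n + 4

/-- Bound for the code of a shattered list (plus one). -/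
def cc (m n : ℕ) : ℕ := pexp m n * (4 * ell m n + 6) + 2

/-- The number of lists in a tuple. -/
def mm (m n : ℕ) : ℕ := 2 * cc m n + 16

/-- Bound for the code of a tuple. -/
def nn (m n : ℕ) : ℕ := mm m n * cc m n + 1

theorem big_par (m n : ℕ) : 4 * (nn m n + 2) ≤ 2 ^ mm m n := by
  have key : ∀ c : ℕ, 4 * ((2 * c + 16) * c + 1 + 2) ≤ 2 ^ (2 * c + 16) := by
    intro c
    have h1 : c + 1 ≤ 2 ^ c := Nat.lt_two_pow_self
    have h2 : c + 8 ≤ 8 * 2 ^ c := by omega
    calc 4 * ((2 * c + 16) * c + 1 + 2) ≤ 8 * ((c + 8) * (c + 8)) := by nlinarith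
      _ ≤ 8 * ((8 * 2 ^ c) * (8 * 2 ^ c)) :=
          Nat.mul_le_mul_left _ (Nat.mul_le_mul h2 h2)
      _ = 2 ^ (2 * c + 9) := by ring
      _ ≤ 2 ^ (2 * c + 16) := Nat.pow_le_pow_right (by norm_num) (by omega)
  exact key (cc m n)

/-! ### Signs of minors -/

/-- The list of columns described by a bit string. -/
def betaU (m n : ℕ) (u : List Bool) : Fin m → Option (Fin (m + (n + n))) :=
  beta m n (u.map some) 0

/-- The sign of the minor described by a bit string. -/
noncomputable def sgn (m n : ℕ) (a : Inp m n) (u : List Bool) : Outcome :=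
  signOut (dd (wmat a.1 a.2) (betaU m n u))

/-- A constraint: a minor and the list of the allowed signs. -/
abbrev Cst : Type := List Bool × List Outcome

/-- The inputs which satisfy the constraints. -/
def ZC (m n : ℕ) (cs : List Cst) : Set (Inp m n) := {a | ∀ p ∈ cs, sgn m n a p.1 ∈ p.2}

theorem zc_append (m n : ℕ) (cs cs' : List Cst) :
    ZC m n (cs ++ cs') = ZC m n cs ∩ ZC m n cs' := by
  ext a
  simp only [ZC, List.mem_append, Set.mem_ofPred_eq, Set.mem_inter_iff]
  constructor
  · intro h
    exact ⟨fun p hp => h p (Or.inl hp), fun p hp => h p (Or.inr hp)⟩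
  · rintro ⟨h1, h2⟩ p (hp | hp)
    · exact h1 p hp
    · exact h2 p hp

/-- A test: a minor, and whether it is asked to be positive (`true`) or nonnegative (`false`). -/
abbrev Tst : Type := List Bool × Bool

/-- The value of a test. -/
noncomputable def tval (m n : ℕ) (a : Inp m n) (t : Tst) : Bool :=
  if t.2 = true then decide (sgn m n a t.1 = some true)
  else decide (sgn m n a t.1 ≠ some false)

/-- The constraint expressing that a test has a given value. -/
def tcs (t : Tst) (v : Bool) : Cst :=
  (t.1, if t.2 = true then (if v = true then [some true] else [none, some false])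
    else (if v = true then [none, some true] else [some false]))

theorem tcs_iff (m n : ℕ) (a : Inp m n) (t : Tst) (v : Bool) :
    sgn m n a (tcs t v).1 ∈ (tcs t v).2 ↔ tval m n a t = v := by
  obtain ⟨u, b⟩ := t
  simp only [tcs, tval]
  rcases sgn m n a u with _ | _ | _ <;> cases b <;> cases v <;> simp

/-- The admissible tests. -/
def GT (m n : ℕ) : Set Tst := {t | t.1.length = ell m n}

/-- The lists shattered by the inputs satisfying the constraints. -/
theorem mem_sh_zc (m n : ℕ) (cs : List Cst) (l : List Tst) :
    l ∈ Sh (tval m n) (GT m n) (ZC m n cs) ↔ (∀ t ∈ l, t.1.length = ell m n) ∧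
      ∀ v : List Bool, v.length = l.length →
        (ZC m n (cs ++ (l.zip v).map fun p => tcs p.1 p.2)).Nonempty := by
  have key : ∀ (a : Inp m n) (l : List Tst) (v : List Bool), v.length = l.length →
      (a ∈ ZC m n ((l.zip v).map fun p => tcs p.1 p.2) ↔ l.map (tval m n a) = v) := by
    intro a l
    induction l with
    | nil =>
      intro v hv
      simp only [List.length_nil, List.length_eq_zero_iff] at hv
      subst hv
      simp [ZC]
    | cons t l ih =>
      intro v hv
      rcases v with _ | ⟨b, v⟩
      · simp at hv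
      · simp only [List.length_cons, Nat.add_right_cancel_iff] at hv
        have h1 : a ∈ ZC m n (((t :: l).zip (b :: v)).map fun p => tcs p.1 p.2) ↔
            sgn m n a (tcs t b).1 ∈ (tcs t b).2 ∧
              a ∈ ZC m n ((l.zip v).map fun p => tcs p.1 p.2) := by
          simp [ZC]
        rw [h1, tcs_iff, ih v hv, List.map_cons, List.cons.injEq]
  unfold Sh GT
  simp only [Set.mem_ofPred_eq]
  refine and_congr Iff.rfl (forall_congr' fun v => forall_congr' fun hv => ?_)
  rw [zc_append]
  constructor
  · rintro ⟨a, ha, h1⟩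
    exact ⟨a, ha, (key a l v hv).2 h1⟩
  · rintro ⟨a, ha, h1⟩
    exact ⟨a, ha, (key a l v hv).1 h1⟩

/-! ### Sign patterns -/

/-- Signs as outcomes. -/
def toO (s : SignType) : Outcome := if s = 1 then some true else if s = -1 then some false else none

/-- Outcomes as signs. -/
def toS (o : Outcome) : SignType := if o = some true then 1 else if o = some false then -1 else 0

theorem toO_toS (o : Outcome) : toO (toS o) = o := by
  rcases o with _ | _ | _ <;> simp [toO, toS]

theorem toS_toO (s : SignType) : toS (toO s) = s := by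
  cases s <;> simp [toO, toS]

theorem signOut_eq (v : ℝ) : signOut v = toO (SignType.sign v) := by
  unfold signOut toO
  rcases lt_trichotomy v 0 with h | h | h
  · rw [sign_neg h, if_neg (by linarith), if_pos h]
    decide
  · rw [h, sign_zero, if_neg (lt_irrefl _), if_neg (lt_irrefl _)]
    decide
  · rw [sign_pos h, if_pos h]
    decide

theorem sgn_eq (m n : ℕ) (a : Inp m n) (u : List Bool) :
    sgn m n a u = toO (pat a (betaU m n u)) := signOut_eq _

theorem tval_congr {m n : ℕ} {a b : Inp m n} (h : pat a = pat b) (t : Tst) :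
    tval m n a t = tval m n b t := by
  unfold tval
  rw [sgn_eq, sgn_eq, h]

theorem length_le_of_sh {m n : ℕ} {l : List Tst}
    (h : l ∈ Sh (tval m n) (GT m n) (Set.univ : Set (Inp m n))) : l.length ≤ pexp m n := by
  classical
  have h2 : ∀ v : List.Vector Bool l.length, ∃ a : Inp m n, l.map (tval m n a) = v.toList := by
    intro v
    obtain ⟨a, -, ha⟩ := h.2 v.toList (by simp)
    exact ⟨a, ha⟩
  choose f hf using h2
  have hinj : Function.Injective fun v => pat (f v) := by
    intro v v' hv
    apply List.Vector.toList_injective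
    rw [← hf v, ← hf v']
    apply List.map_congr_left
    intro t _
    exact tval_congr hv t
  have h3 : 2 ^ l.length ≤ 2 ^ pexp m n := by
    refine le_trans ?_ (ncard_pat_le m n)
    have h4 : (Set.range fun v => pat (f v)).ncard = 2 ^ l.length := by
      rw [← Set.image_univ, Set.ncard_image_of_injective _ hinj, Set.ncard_univ,
        Nat.card_eq_fintype_card, card_vector, Fintype.card_bool]
    rw [← h4]
    apply Set.ncard_le_ncard _ (Set.toFinite _)
    rintro _ ⟨v, rfl⟩
    exact ⟨_, rfl⟩
  exact (Nat.pow_le_pow_iff_right (by norm_num)).1 h3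

theorem sz_of_sh {m n : ℕ} {l : List Tst}
    (h : l ∈ Sh (tval m n) (GT m n) (Set.univ : Set (Inp m n))) : sz l + 1 ≤ cc m n := by
  have h1 := length_le_of_sh h
  have h2 : ∀ t ∈ l, sz t ≤ 4 * ell m n + 5 := by
    intro t ht
    have h3 : t.1.length = ell m n := h.1 t ht
    have h4 := sz_listBool_le t.1
    have h5 := sz_bool_le t.2
    have h6 : sz t = sz t.1 + sz t.2 + 1 := sz_pair t.1 t.2
    omega
  have h7 := sz_le_length_mul l _ h2
  unfold cc
  have h8 : l.length * (4 * ell m n + 5 + 1) ≤ pexp m n * (4 * ell m n + 6) :=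
    Nat.mul_le_mul h1 le_rfl
  omega

theorem par (m n : ℕ) : Par (tval m n) (GT m n) (nn m n) (mm m n) where
  fin := by
    have h1 : (bits '' Sh (tval m n) (GT m n) (Set.univ : Set (Inp m n))).Finite := by
      apply (ncard_short (cc m n)).1.subset
      rintro _ ⟨l, hl, rfl⟩
      have := sz_of_sh hl
      rw [Set.mem_ofPred_eq, bits_length]
      omega
    exact Set.Finite.of_finite_image h1 bits_injective.injOn
  len := by
    rintro y ⟨h1, h2⟩
    rw [bits_length]
    have h3 := sz_le_length_mul y (cc m n - 1) (fun l hl => by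
      have := sz_of_sh (h2 l hl)
      omega)
    rw [h1] at h3
    have h4 : cc m n - 1 + 1 = cc m n := by
      unfold cc
      omega
    rw [h4] at h3
    exact h3
  big := big_par m n

/-- The potential of a list of constraints. -/
noncomputable def psi (m n : ℕ) (cs : List Cst) : ℕ :=
  Psi (tval m n) (GT m n) (nn m n) (mm m n) (ZC m n cs)

/-! ### Plans -/

/-- The piece number `j` of a plan. -/
def chunk (m n : ℕ) (pb : List Bool) (j : ℕ) : List Bool :=
  (List.range (ell m n)).map fun i => pb.getD (j * ell m n + i) false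

/-- The constraints recorded when the plan `pb` is executed with outcomes `t`. -/
def recs (m n : ℕ) (pb : List Bool) (t : List Outcome) : List Cst :=
  (List.range (rw m n)).map fun j => (chunk m n pb j, [t.getD j none])

/-- All inputs satisfying the constraints have the same answer. -/
def Settled (m n : ℕ) (cs : List Cst) : Prop :=
  ¬ ((∃ a ∈ ZC m n cs, Feas a) ∧ ∃ a ∈ ZC m n cs, ¬ Feas a)

/-- Good plans, as bit strings. -/
def Good (m n : ℕ) (cs : List Cst) (pb : List Bool) : Prop :=
  ∀ t : List Outcome, t.length = rw m n →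
    psi m n (cs ++ recs m n pb t) < psi m n cs ∨ Settled m n (cs ++ recs m n pb t)

theorem drop3 (m n : ℕ) (Z : Set (Inp m n)) (q : Fin m → Option (Fin (m + (n + n))))
    (r r' : SignType) (hZ : Z.Nonempty) (hr : r ≠ r')
    (h1 : Psi (tval m n) (GT m n) (nn m n) (mm m n) (Z ∩ {a | pat a q = r}) =
      Psi (tval m n) (GT m n) (nn m n) (mm m n) Z)
    (h2 : Psi (tval m n) (GT m n) (nn m n) (mm m n) (Z ∩ {a | pat a q = r'}) =
      Psi (tval m n) (GT m n) (nn m n) (mm m n) Z) : False := by
  obtain ⟨u, hu, hu'⟩ := t_ENC m n q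
  have hb : betaU m n u = q := by
    have := hu' [] [] 0 (by simp)
    simpa [betaU] using this
  have hs : ∀ a : Inp m n, sgn m n a u = toO (pat a q) := fun a => by rw [sgn_eq, hb]
  have sq : ∀ (r : SignType) (t : Tst) (c : Bool),
      (∀ a : Inp m n, pat a q = r → tval m n a t = c) →
      Psi (tval m n) (GT m n) (nn m n) (mm m n) (Z ∩ {a | pat a q = r}) =
        Psi (tval m n) (GT m n) (nn m n) (mm m n) Z →
      Psi (tval m n) (GT m n) (nn m n) (mm m n) (Z ∩ {a | tval m n a t = c}) =
        Psi (tval m n) (GT m n) (nn m n) (mm m n) Z := by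
    intro r t c h3 h4
    apply le_antisymm (psi_mono (par m n) Set.inter_subset_left)
    rw [← h4]
    exact psi_mono (par m n) (Set.inter_subset_inter_right _ fun a ha => h3 a ha)
  have fin : ∀ t : Tst, t ∈ GT m n → ∀ c : Bool,
      (∀ a : Inp m n, pat a q = r → tval m n a t = c) →
      (∀ a : Inp m n, pat a q = r' → tval m n a t = !c) → False := by
    intro t ht c h3 h4
    have e1 := sq r t c h3 h1
    have e2 := sq r' t (!c) h4 h2
    cases c
    · exact psi_drop (par m n) hZ ht e1 e2
    · exact psi_drop (par m n) hZ ht e2 e1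
  have g1 : ((u, true) : Tst) ∈ GT m n := hu
  have g2 : ((u, false) : Tst) ∈ GT m n := hu
  have v1 : ∀ (a : Inp m n) (s : SignType), pat a q = s → tval m n a (u, true) = decide (s = 1) := by
    intro a s ha
    unfold tval
    rw [if_pos rfl, hs, ha]
    cases s <;> decide
  have v2 : ∀ (a : Inp m n) (s : SignType), pat a q = s →
      tval m n a (u, false) = decide (s ≠ -1) := by
    intro a s ha
    unfold tval
    rw [if_neg (by simp), hs, ha]
    cases s <;> decide
  by_cases h3 : decide (r' = 1) = !decide (r = 1)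
  · exact fin _ g1 (decide (r = 1)) (fun a ha => v1 a r ha) (fun a ha => by rw [v1 a r' ha, h3])
  · refine fin _ g2 (decide (r ≠ -1)) (fun a ha => v2 a r ha) (fun a ha => ?_)
    rw [v2 a r' ha]
    clear fin sq h1 h2 v1 v2 ha
    revert r r'
    decide

end Run7.h625.PHL
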