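import Pool.Agent.Run7.h625.PHL.Sem

set_option autoImplicit false

/-!
# Existence of good plans, as bit strings
-/

namespace Run7.h625.PHL

open Pool.Agent Pool.Agent.NPC Pool.Agent.NPC.ER Pool.Agent.NPC.H612 Pool.Agent.H558R2
open Pool.Agent.H622R3.SM

theorem getD_flatMap {β : Type} (f : β → List Bool) (e : ℕ) (hf : ∀ x, (f x).length = e)
    (l : List β) : ∀ (j i : ℕ) (hj : j < l.length), i < e →
    (l.flatMap f).getD (j * e + i) false = (f l[j]).getD i false := by
  induction l with
  | nil => intro j i hj; simp at hj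
  | cons x l ih =>
    intro j i hj hi
    rw [List.flatMap_cons]
    rcases j with _ | j
    · rw [Nat.zero_mul, Nat.zero_add, List.getD_append _ _ _ _ (by rw [hf]; exact hi)]
      rfl
    · rw [List.getD_append_right _ _ _ _ (by rw [hf]; nlinarith), hf]
      have e1 : (j + 1) * e + i - e = j * e + i := by
        have : (j + 1) * e = j * e + e := by ring
        omega
      rw [e1, ih j i (by simpa using hj) hi]
      rfl

theorem length_flatMap {β : Type} (f : β → List Bool) (e : ℕ) (hf : ∀ x, (f x).length = e)
    (l : List β) : (l.flatMap f).length = l.length * e := by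
  induction l with
  | nil => simp
  | cons x l ih =>
    rw [List.flatMap_cons, List.length_append, hf, ih, List.length_cons]
    ring

theorem chunk_flatMap {β : Type} (m n : ℕ) (f : β → List Bool) (hf : ∀ x, (f x).length = ell m n)
    (l : List β) (j : ℕ) (hj : j < l.length) : chunk m n (l.flatMap f) j = f l[j] := by
  unfold chunk
  apply List.ext_getElem
  · simp [hf]
  · intro i h1 h2
    simp only [List.getElem_map, List.getElem_range]
    rw [getD_flatMap f (ell m n) hf l j i hj (by simpa using h1)]
    exact (List.getElem_eq_getD false).symm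

/-- **Existence of good plans.** -/
theorem exists_goodBits (m n : ℕ) (cs : List Cst) :
    ∃ pb : List Bool, pb.length = rw m n * ell m n ∧ Good m n cs pb := by
  classical
  have hmono : ∀ Z Z' : Set (Inp m n), Z ⊆ Z' → Psi (tval m n) (GT m n) (nn m n) (mm m n) Z ≤
      Psi (tval m n) (GT m n) (nn m n) (mm m n) Z' := fun _ _ h => psi_mono (par m n) h
  obtain ⟨D, hD, hgood⟩ := exists_goodPlan (χ := pat (m := m) (n := n)) (F := Feas)
    (Ψ := Psi (tval m n) (GT m n) (nn m n) (mm m n)) (2 * m + 2 * n + 3)
    (by
      intro σ hσ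
      obtain ⟨D, hD, ans, hans⟩ := exists_cert (m := m) (n := n) (2 * m + 2 * n + 3) (by omega) σ
        (by
          intro D hD
          obtain ⟨a, ha⟩ := hσ D.toList (by simpa using hD)
          exact ⟨a, fun q hq => ha q (by simpa using hq)⟩)
      refine ⟨D.toList, by simpa using hD, ans = true, fun a ha => ?_⟩
      have := hans a (fun q hq => ha q (by simpa using hq))
      rw [← this]
      simp)
    hmono (psi_empty (par m n)) (fun _ h => psi_pos (par m n) h)
    (fun Z q r r' hZ hr h1 h2 => drop3 m n Z q r r' hZ hr h1 h2) (ZC m n cs)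
  have hq := hgood.append hmono (List.replicate (rw m n - D.length) (fun _ => none))
  obtain ⟨D', hD', hg⟩ : ∃ D' : List (Fin m → Option (Fin (m + (n + n)))),
      D'.length = rw m n ∧ GoodPlan pat Feas (Psi (tval m n) (GT m n) (nn m n) (mm m n))
        (ZC m n cs) D' := by
    refine ⟨_, ?_, hq⟩
    rw [List.length_append, List.length_replicate]
    unfold rw
    omega
  have henc : ∀ β : Fin m → Option (Fin (m + (n + n))), ∃ u : List Bool,
      u.length = ell m n ∧ betaU m n u = β := by
    intro β
    obtain ⟨u, hu, hu'⟩ := t_ENC m n β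
    refine ⟨u, hu, ?_⟩
    have := hu' [] [] 0 (by simp)
    simpa [betaU] using this
  choose f hf1 hf2 using henc
  refine ⟨D'.flatMap f, ?_, ?_⟩
  · rw [length_flatMap f (ell m n) hf1, hD']
  · intro t ht
    have hsub : ZC m n (cs ++ recs m n (D'.flatMap f) t) ⊆
        cut pat (ZC m n cs) D' (t.map toS) := by
      intro a ha
      rw [zc_append] at ha
      refine ⟨ha.1, ?_⟩
      apply List.ext_getElem
      · simp [hD', ht]
      · intro j h1 h2
        simp only [List.getElem_map]
        have hj : j < D'.length := by simpa using h1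
        have hj' : j < t.length := by simpa using h2
        have h3 := ha.2 (chunk m n (D'.flatMap f) j, [t.getD j none]) (by
          unfold recs
          exact List.mem_map.2 ⟨j, List.mem_range.2 (by rw [← hD']; exact hj), rfl⟩)
        simp only [List.mem_singleton] at h3
        rw [chunk_flatMap m n f hf1 D' j hj, sgn_eq, hf2] at h3
        have h4 : t.getD j none = t[j] := (List.getElem_eq_getD none).symm
        rw [h4] at h3
        rw [← h3, toS_toO]
    rcases hg (t.map toS) (by rw [List.length_map, ht, hD']) with h | h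
    · left
      exact lt_of_le_of_lt (hmono _ _ hsub) h
    · right
      rintro ⟨⟨a, ha, hFa⟩, ⟨b, hb, hFb⟩⟩
      exact h ⟨⟨a, hsub ha, hFa⟩, ⟨b, hsub hb, hFb⟩⟩

theorem psi_le_nn (m n : ℕ) (cs : List Cst) : psi m n cs ≤ nn m n + 2 := psi_le_top (par m n) _

theorem psi_pos' {m n : ℕ} {cs : List Cst} (h : (ZC m n cs).Nonempty) : 0 < psi m n cs :=
  psi_pos (par m n) h

theorem psi_mono' {m n : ℕ} {cs cs' : List Cst} (h : ZC m n cs ⊆ ZC m n cs') :
    psi m n cs ≤ psi m n cs' := psi_mono (par m n) h

theorem psi_le_iff' (m n : ℕ) (cs : List Cst) (k : ℕ) :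
    psi m n cs ≤ k ↔ Iso (nn m n) k (YB (tval m n) (GT m n) (mm m n) (ZC m n cs)) :=
  psi_le_iff (par m n) _ k

end Run7.h625.PHL
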