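import Pool.Agent.Run7.h625.PHL.Hash
import Pool.Agent.NPC.Tree
import Pool.Agent.NPC.Enc

set_option autoImplicit false

/-!
# The potential: isolation number of tuples of shattered lists of tests
-/

namespace Run7.h625.PHL

open Pool.Agent.NPC

section Sh

variable {α τ : Type} (tv : α → τ → Bool) (G : Set τ)

/-- A list of tests (from `G`) is shattered by `Z` if all vectors of answers occur. -/
def Sh (Z : Set α) : Set (List τ) :=
  {l | (∀ t ∈ l, t ∈ G) ∧ ∀ v : List Bool, v.length = l.length → ∃ a ∈ Z, l.map (tv a) = v}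

variable {tv G}

lemma sh_mono {Z Z' : Set α} (h : Z ⊆ Z') : Sh tv G Z ⊆ Sh tv G Z' := by
  rintro l ⟨h1, h2⟩
  refine ⟨h1, fun v hv => ?_⟩
  obtain ⟨a, ha, h3⟩ := h2 v hv
  exact ⟨a, h ha, h3⟩

lemma nil_mem_sh {Z : Set α} (h : Z.Nonempty) : ([] : List τ) ∈ Sh tv G Z := by
  obtain ⟨a, ha⟩ := h
  refine ⟨by simp, fun v hv => ⟨a, ha, ?_⟩⟩
  simp only [List.length_nil, List.length_eq_zero_iff] at hv
  simp [hv]

lemma sh_empty : Sh tv G (∅ : Set α) = ∅ := by
  rw [Set.eq_empty_iff_forall_notMem]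
  rintro l ⟨-, h⟩
  obtain ⟨a, ha, _⟩ := h (List.replicate l.length true) (by simp)
  exact ha

lemma notMem_of_sh {Z : Set α} {t : τ} {b : Bool} {l : List τ}
    (h : l ∈ Sh tv G (Z ∩ {a | tv a t = b})) : t ∉ l := by
  intro ht
  obtain ⟨a, ha, h1⟩ := h.2 (List.replicate l.length (!b)) (by simp)
  have h2 : tv a t ∈ l.map (tv a) := List.mem_map_of_mem ht
  rw [h1, List.mem_replicate] at h2
  have h3 : tv a t = b := ha.2
  rw [h3] at h2
  cases b <;> simp at h2

lemma cons_mem_sh {Z : Set α} {t : τ} (ht : t ∈ G) {l : List τ}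
    (h0 : l ∈ Sh tv G (Z ∩ {a | tv a t = false})) (h1 : l ∈ Sh tv G (Z ∩ {a | tv a t = true})) :
    t :: l ∈ Sh tv G Z := by
  refine ⟨?_, ?_⟩
  · intro t' ht'
    rcases List.mem_cons.1 ht' with rfl | h
    · exact ht
    · exact h0.1 t' h
  · intro v hv
    rcases v with _ | ⟨b, v⟩
    · simp at hv
    · simp only [List.length_cons, Nat.add_right_cancel_iff] at hv
      cases b
      · obtain ⟨a, ha, h2⟩ := h0.2 v hv
        refine ⟨a, ha.1, ?_⟩
        have h3 : tv a t = false := ha.2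
        simp [h2, h3]
      · obtain ⟨a, ha, h2⟩ := h1.2 v hv
        refine ⟨a, ha.1, ?_⟩
        have h3 : tv a t = true := ha.2
        simp [h2, h3]

/-- **Superadditivity** of the number of shattered lists. -/
theorem ncard_sh_add_le {Z : Set α} {t : τ} (ht : t ∈ G) (hf : (Sh tv G Z).Finite) :
    (Sh tv G (Z ∩ {a | tv a t = false})).ncard + (Sh tv G (Z ∩ {a | tv a t = true})).ncard ≤
      (Sh tv G Z).ncard := by
  set S0 := Sh tv G (Z ∩ {a | tv a t = false}) with hS0
  set S1 := Sh tv G (Z ∩ {a | tv a t = true}) with hS1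
  have h0 : S0 ⊆ Sh tv G Z := sh_mono Set.inter_subset_left
  have h1 : S1 ⊆ Sh tv G Z := sh_mono Set.inter_subset_left
  have f0 : S0.Finite := hf.subset h0
  have f1 : S1.Finite := hf.subset h1
  rw [← Set.ncard_union_add_ncard_inter S0 S1 f0 f1]
  have e1 : (S0 ∩ S1).ncard = ((fun l => t :: l) '' (S0 ∩ S1)).ncard :=
    (Set.ncard_image_of_injective _ (List.cons_injective)).symm
  have hdis : Disjoint (S0 ∪ S1) ((fun l => t :: l) '' (S0 ∩ S1)) := by
    rw [Set.disjoint_left]
    rintro l h ⟨l', -, rfl⟩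
    rcases h with h | h
    · exact notMem_of_sh h List.mem_cons_self
    · exact notMem_of_sh h List.mem_cons_self
  rw [e1, ← Set.ncard_union_eq hdis (f0.union f1) ((f0.subset Set.inter_subset_left).image _)]
  apply Set.ncard_le_ncard _ hf
  rintro l (h | ⟨l', h, rfl⟩)
  · rcases h with h | h
    · exact h0 h
    · exact h1 h
  · exact cons_mem_sh ht h.1 h.2

end Sh

section Pow

variable {β : Type}

/-- Lists of length `M` with entries in `S`. -/
def Yp (M : ℕ) (S : Set β) : Set (List β) := {y | y.length = M ∧ ∀ l ∈ y, l ∈ S}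

lemma yp_mono {M : ℕ} {S S' : Set β} (h : S ⊆ S') : Yp M S ⊆ Yp M S' :=
  fun _ hy => ⟨hy.1, fun l hl => h (hy.2 l hl)⟩

lemma yp_eq_image (M : ℕ) (S : Set β) :
    Yp M S = (fun f : Fin M → β => List.ofFn f) '' {f | ∀ i, f i ∈ S} := by
  ext y
  constructor
  · rintro ⟨h1, h2⟩
    subst h1
    exact ⟨fun i => y.get i, fun i => h2 _ (List.get_mem y i), List.ofFn_get y⟩
  · rintro ⟨f, hf, rfl⟩
    refine ⟨by simp, fun l hl => ?_⟩
    simp only [List.mem_ofFn] at hl
    obtain ⟨i, rfl⟩ := hl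
    exact hf i

lemma finite_yp {M : ℕ} {S : Set β} (hS : S.Finite) : (Yp M S).Finite := by
  rw [yp_eq_image]
  apply Set.Finite.image
  have : {f : Fin M → β | ∀ i, f i ∈ S} = Set.pi Set.univ fun _ => S := by
    ext f
    simp
  rw [this]
  exact Set.Finite.pi fun _ => hS

lemma ncard_yp {M : ℕ} {S : Set β} (hS : S.Finite) : (Yp M S).ncard = S.ncard ^ M := by
  classical
  rw [yp_eq_image, Set.ncard_image_of_injective _ List.ofFn_injective]
  have : {f : Fin M → β | ∀ i, f i ∈ S} =
      ((Fintype.piFinset fun _ : Fin M => hS.toFinset : Finset (Fin M → β)) : Set (Fin M → β)) := by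
    ext f
    simp
  rw [this, Set.ncard_coe_finset, Fintype.card_piFinset]
  simp [Set.ncard_eq_toFinset_card _ hS]

end Pow

section Differ

lemma differ_of_not_prefix : ∀ (x y : List Bool), (∀ s, x ++ s ≠ y) → (∀ s, y ++ s ≠ x) →
    Differ x y
  | [], y, h, _ => absurd rfl (h y)
  | _ :: _, [], _, h => absurd rfl (h _)
  | a :: x, b :: y, h1, h2 => by
    by_cases hab : a = b
    · subst hab
      obtain ⟨i, h3, h4, h5⟩ := differ_of_not_prefix x y
        (fun s hs => h1 s (by simp [hs])) (fun s hs => h2 s (by simp [hs]))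
      exact ⟨i + 1, by simpa using h3, by simpa using h4, by simpa using h5⟩
    · exact ⟨0, by simp, by simp, by simpa using hab⟩

lemma differ_bits {β : Type} [TEnc β] {x y : β} (h : x ≠ y) : Differ (bits x) (bits y) := by
  apply differ_of_not_prefix
  · intro s hs
    have := T.enc_append_inj (toT x) (toT y) s [] (by simpa [bits] using hs)
    exact h (TEnc.inj this.1)
  · intro s hs
    have := T.enc_append_inj (toT y) (toT x) s [] (by simpa [bits] using hs)
    exact h (TEnc.inj this.1).symm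

end Differ

lemma ncard_short (N : ℕ) : {x : List Bool | x.length ≤ N}.Finite ∧
    {x : List Bool | x.length ≤ N}.ncard ≤ 2 ^ (N + 1) := by
  classical
  have h : ∀ i, {x : List Bool | x.length = i}.Finite ∧
      {x : List Bool | x.length = i}.ncard = 2 ^ i := by
    intro i
    have : {x : List Bool | x.length = i} =
        Set.range (fun v : List.Vector Bool i => v.toList) := by
      ext x
      constructor
      · intro hx
        exact ⟨⟨x, hx⟩, rfl⟩
      · rintro ⟨v, rfl⟩
        exact v.toList_length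
    have hinj : Function.Injective (fun v : List.Vector Bool i => v.toList) :=
      List.Vector.toList_injective
    rw [this]
    refine ⟨Set.finite_range _, ?_⟩
    rw [← Set.image_univ, Set.ncard_image_of_injective _ hinj, Set.ncard_univ,
      Nat.card_eq_fintype_card, card_vector, Fintype.card_bool]
  induction N with
  | zero =>
    have : {x : List Bool | x.length ≤ 0} = {x : List Bool | x.length = 0} := by
      ext x
      simp
    rw [this]
    refine ⟨(h 0).1, ?_⟩
    rw [(h 0).2]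
    norm_num
  | succ N ih =>
    have : {x : List Bool | x.length ≤ N + 1} =
        {x : List Bool | x.length ≤ N} ∪ {x : List Bool | x.length = N + 1} := by
      ext x
      simp only [Set.mem_ofPred_eq, Set.mem_union]
      omega
    rw [this]
    refine ⟨ih.1.union (h _).1, ?_⟩
    refine (Set.ncard_union_le _ _).trans ?_
    rw [(h (N + 1)).2]
    have h2 : 2 ^ (N + 1 + 1) = 2 ^ (N + 1) + 2 ^ (N + 1) := by ring
    rw [h2]
    exact Nat.add_le_add_right ih.2 _

section Psi

variable {α τ : Type} [TEnc τ] (tv : α → τ → Bool) (G : Set τ) (N M : ℕ)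

/-- The codes of the tuples of `M` lists shattered by `Z`. -/
def YB (Z : Set α) : Set (List Bool) := (bits : List (List τ) → List Bool) '' Yp M (Sh tv G Z)

/-- The potential of `Z`. -/
noncomputable def Psi (Z : Set α) : ℕ := sInf {k | Iso N k (YB tv G M Z)}

/-- Assumptions on the parameters. -/
structure Par : Prop where
  fin : (Sh tv G (Set.univ : Set α)).Finite
  len : ∀ y ∈ Yp M (Sh tv G (Set.univ : Set α)), (bits y).length ≤ N
  big : 4 * (N + 2) ≤ 2 ^ M

variable {tv G N M}

lemma yb_mono {Z Z' : Set α} (h : Z ⊆ Z') : YB tv G M Z ⊆ YB tv G M Z' :=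
  Set.image_mono (yp_mono (sh_mono h))

variable (hP : Par tv G N M)

include hP

lemma fin_sh (Z : Set α) : (Sh tv G Z).Finite := hP.fin.subset (sh_mono (Set.subset_univ _))

lemma fin_yb (Z : Set α) : (YB tv G M Z).Finite := (finite_yp (fin_sh hP Z)).image _

lemma ncard_yb (Z : Set α) : (YB tv G M Z).ncard = (Sh tv G Z).ncard ^ M := by
  unfold YB
  rw [Set.ncard_image_of_injective _ bits_injective, ncard_yp (fin_sh hP Z)]

lemma len_yb {Z : Set α} {x : List Bool} (hx : x ∈ YB tv G M Z) : x.length ≤ N := by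
  obtain ⟨y, hy, rfl⟩ := hx
  exact hP.len y (yp_mono (sh_mono (Set.subset_univ _)) hy)

omit hP in
lemma differ_yb {Z : Set α} {x y : List Bool} (hx : x ∈ YB tv G M Z) (hy : y ∈ YB tv G M Z)
    (h : x ≠ y) : Differ x y := by
  obtain ⟨x', -, rfl⟩ := hx
  obtain ⟨y', -, rfl⟩ := hy
  exact differ_bits fun h' => h (by rw [h'])

lemma iso_of_small {Z : Set α} {k : ℕ} (h : 2 * (Sh tv G Z).ncard ^ M ≤ 2 ^ k) :
    Iso N k (YB tv G M Z) :=
  iso_of_card (fin_yb hP Z) (fun _ hx => len_yb hP hx) (fun _ hx _ hy => differ_yb hx hy)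
    (by rwa [ncard_yb hP])

lemma iso_top (Z : Set α) : Iso N (N + 2) (YB tv G M Z) := by
  apply iso_of_card (fin_yb hP Z) (fun _ hx => len_yb hP hx) (fun _ hx _ hy => differ_yb hx hy)
  have h1 : (YB tv G M Z).ncard ≤ 2 ^ (N + 1) :=
    (Set.ncard_le_ncard (fun x hx => len_yb hP hx) (ncard_short N).1).trans (ncard_short N).2
  calc 2 * (YB tv G M Z).ncard ≤ 2 * 2 ^ (N + 1) := Nat.mul_le_mul_left _ h1
    _ = 2 ^ (N + 2) := by ring

lemma psi_iso (Z : Set α) : Iso N (Psi tv G N M Z) (YB tv G M Z) :=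
  Nat.sInf_mem (s := {k | Iso N k (YB tv G M Z)}) ⟨_, iso_top hP Z⟩

omit hP in
lemma psi_le {Z : Set α} {k : ℕ} (h : Iso N k (YB tv G M Z)) : Psi tv G N M Z ≤ k :=
  Nat.sInf_le h

lemma psi_le_iff (Z : Set α) (k : ℕ) : Psi tv G N M Z ≤ k ↔ Iso N k (YB tv G M Z) :=
  ⟨fun h => (psi_iso hP Z).mono h, psi_le⟩

lemma psi_le_top (Z : Set α) : Psi tv G N M Z ≤ N + 2 := psi_le (iso_top hP Z)

lemma psi_mono {Z Z' : Set α} (h : Z ⊆ Z') : Psi tv G N M Z ≤ Psi tv G N M Z' :=
  psi_le ((psi_iso hP Z').mono_set (yb_mono h))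

lemma psi_pos {Z : Set α} (h : Z.Nonempty) : 0 < Psi tv G N M Z := by
  rw [Nat.pos_iff_ne_zero]
  intro h0
  have h1 := psi_iso hP Z
  rw [h0] at h1
  have h2 := iso_zero h1
  have h3 : bits (List.replicate M ([] : List τ)) ∈ YB tv G M Z := by
    refine ⟨_, ⟨by simp, fun l hl => ?_⟩, rfl⟩
    rw [List.eq_of_mem_replicate hl]
    exact nil_mem_sh h
  rw [h2] at h3
  exact h3

lemma psi_empty : Psi tv G N M (∅ : Set α) = 0 := by
  have hM : 0 < M := by
    rcases Nat.eq_zero_or_pos M with h | h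
    · have := hP.big
      rw [h] at this
      omega
    · exact h
  apply Nat.le_zero.1
  apply psi_le
  have : YB tv G M (∅ : Set α) = ∅ := by
    unfold YB
    rw [sh_empty, Set.image_eq_empty, Set.eq_empty_iff_forall_notMem]
    rintro y ⟨h1, h2⟩
    rcases y with _ | ⟨l, y⟩
    · simp at h1
      omega
    · exact h2 l List.mem_cons_self
  rw [this]
  exact iso_empty _ _

/-- **One of the two halves has smaller potential.** -/
theorem psi_drop {Z : Set α} (hZ : Z.Nonempty) {t : τ} (ht : t ∈ G)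
    (h0 : Psi tv G N M (Z ∩ {a | tv a t = false}) = Psi tv G N M Z)
    (h1 : Psi tv G N M (Z ∩ {a | tv a t = true}) = Psi tv G N M Z) : False := by
  have key : ∀ Z' : Set α, Psi tv G N M Z' = Psi tv G N M Z →
      2 * (Sh tv G Z').ncard ≤ (Sh tv G Z).ncard → False := by
    intro Z' h2 h3
    obtain ⟨k, hk⟩ : ∃ k, Psi tv G N M Z = k + 1 := ⟨Psi tv G N M Z - 1, by
      have := psi_pos hP hZ
      omega⟩
    have h4 := card_of_iso (fin_yb hP Z) (psi_iso hP Z)
    rw [ncard_yb hP, hk] at h4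
    have h5 : k + 1 ≤ N + 2 := hk ▸ psi_le_top hP Z
    have h6 : 2 ^ M * (Sh tv G Z').ncard ^ M ≤ (Sh tv G Z).ncard ^ M := by
      rw [← mul_pow]
      exact Nat.pow_le_pow_left h3 M
    have h7 : (k + 1) * (4 * (Sh tv G Z').ncard ^ M) ≤ (k + 1) * 2 ^ (k + 1) := by
      calc (k + 1) * (4 * (Sh tv G Z').ncard ^ M)
          = (4 * (k + 1)) * (Sh tv G Z').ncard ^ M := by ring
        _ ≤ (4 * (N + 2)) * (Sh tv G Z').ncard ^ M :=
            Nat.mul_le_mul_right _ (Nat.mul_le_mul_left _ h5)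
        _ ≤ 2 ^ M * (Sh tv G Z').ncard ^ M := Nat.mul_le_mul_right _ hP.big
        _ ≤ _ := h6
        _ ≤ _ := h4
    have h8 : 4 * (Sh tv G Z').ncard ^ M ≤ 2 ^ (k + 1) :=
      Nat.le_of_mul_le_mul_left h7 (by omega)
    have h9 : 2 * (Sh tv G Z').ncard ^ M ≤ 2 ^ k := by
      have : 2 ^ (k + 1) = 2 * 2 ^ k := by ring
      omega
    have h10 := psi_le (iso_of_small hP h9)
    omega
  have hadd := ncard_sh_add_le (tv := tv) (G := G) (Z := Z) ht (fin_sh hP Z)
  rcases le_total (Sh tv G (Z ∩ {a | tv a t = false})).ncard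
    (Sh tv G (Z ∩ {a | tv a t = true})).ncard with h | h
  · exact key _ h0 (by omega)
  · exact key _ h1 (by omega)

end Psi

end Run7.h625.PHL
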